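import Mathlib

set_option autoImplicit false

/-!
# Freely movable points in optimal point dispersions: disconnected regions

For every disconnected compact region `C` (of a Euclidean space or of a sphere) there are infinitely
many `n` such that some extremal `n`-point set of `C` has a freely movable point.
-/

namespace Pool.Agent.Results.MP_251bf7_co.DisconnectedRegions

open Metric Set

/-- `f` is the minimum distance between two different points of the finite set `P`. -/
def IsMinDist {E : Type*} [MetricSpace E] (P : Finset E) (f : ℝ) : Prop :=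
  (∃ x ∈ P, ∃ y ∈ P, x ≠ y ∧ dist x y = f) ∧ ∀ x ∈ P, ∀ y ∈ P, x ≠ y → f ≤ dist x y

/-- `P` is an extremal `n`-point set of `C`: its minimum distance is the largest possible for
`n` points of `C`. -/
def Extremal {E : Type*} [MetricSpace E] (C : Set E) (n : ℕ) (P : Finset E) : Prop :=
  (P : Set E) ⊆ C ∧ P.card = n ∧
    ∃ f, IsMinDist P f ∧ ∀ Q : Finset E, (Q : Set E) ⊆ C → Q.card = n → ∀ g, IsMinDist Q g → g ≤ f

/-- The point `p` of `P` is freely movable within `C`: a non-constant path in `C` starts at `p`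
such that, when `p` is moved along it and the other points of `P` stay fixed, the moving point
never meets another point of `P` and its distances to the other points of `P` never drop below the
minimum distance of `P`. -/
def FreelyMovable {E : Type*} [MetricSpace E] (C : Set E) (P : Finset E) (p : E) : Prop :=
  p ∈ P ∧ ∃ γ : ℝ → E, ContinuousOn γ (Icc 0 1) ∧ γ 0 = p ∧ (∃ t ∈ Icc (0 : ℝ) 1, γ t ≠ p) ∧
    ∀ t ∈ Icc (0 : ℝ) 1, γ t ∈ C ∧ ∀ x ∈ P, x ≠ p → γ t ≠ x ∧
      ∀ f, IsMinDist P f → f ≤ dist (γ t) x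

/-- `C` is a compact region of the space `M` (a subset of `E`): it is compact, lies in `M`, and is
the closure of its interior relative to `M`. -/
def CompactRegion {E : Type*} [MetricSpace E] (M C : Set E) : Prop :=
  IsCompact C ∧ C = closure {x | x ∈ M ∧ ∃ ε > 0, M ∩ ball x ε ⊆ C}

section General

variable {E : Type*} [MetricSpace E]

/-- a bound for the number of points of a compact set at mutual distance at least `f` -/
private lemma exists_bound {K : Set E} (hK : IsCompact K) {f : ℝ} (hf : 0 < f) :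
    ∃ N : ℕ, ∀ P : Finset E, (P : Set E) ⊆ K → (∀ x ∈ P, ∀ y ∈ P, x ≠ y → f ≤ dist x y) →
      P.card ≤ N := by
  obtain ⟨t, ht, hcov⟩ := Metric.totallyBounded_iff.1 hK.totallyBounded (f / 2) (by positivity)
  refine ⟨ht.toFinset.card, fun P hP hsep => ?_⟩
  have h1 : ∀ x ∈ P, ∃ y ∈ ht.toFinset, dist x y < f / 2 := by
    intro x hx
    have := hcov (hP hx)
    simp only [mem_iUnion, mem_ball, exists_prop] at this
    obtain ⟨y, hy, hxy⟩ := this
    exact ⟨y, ht.mem_toFinset.2 hy, hxy⟩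
  choose! g hg hg' using h1
  refine Finset.card_le_card_of_injOn g hg ?_
  intro x hx y hy hxy
  by_contra hne
  have h2 := hsep x hx y hy hne
  have h3 := hg' x hx
  have h4 := hg' y hy
  have h5 : dist x y ≤ dist x (g x) + dist y (g x) := dist_triangle_right _ _ _
  have h6 : g x = g y := hxy
  rw [h6] at h5
  rw [h6] at h3
  linarith

/-- a maximal separated set, for a monotone family of conditions -/
private lemma exists_maxcard {F : Type*} (S : Finset F → Prop) (h0 : ∃ P, S P) {N : ℕ}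
    (hN : ∀ P, S P → P.card ≤ N) : ∃ P, S P ∧ ∀ Q, S Q → Q.card ≤ P.card := by
  classical
  have h1 : ∃ k, ∃ P, S P ∧ P.card = k := by
    obtain ⟨P, hP⟩ := h0
    exact ⟨_, P, hP, rfl⟩
  have h2 : ∀ k, (∃ P, S P ∧ P.card = k) → k ≤ N := by
    rintro k ⟨P, hP, rfl⟩
    exact hN P hP
  obtain ⟨P, hP, hk⟩ := Nat.findGreatest_spec (P := fun k => ∃ P, S P ∧ P.card = k)
    (h2 _ h1.choose_spec) h1.choose_spec
  refine ⟨P, hP, fun Q hQ => ?_⟩
  rw [hk]
  exact Nat.le_findGreatest (hN Q hQ) ⟨Q, hQ, rfl⟩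

/-- small jump values of the largest minimum distance -/
private lemma exists_jump {A : Set E} (hA : IsCompact A) (hinf : A.Infinite) {δ : ℝ} (hδ : 0 < δ)
    (N : ℕ) : ∃ m ≥ N, ∃ f : ℝ, 0 < f ∧ f < δ ∧
      (∃ P : Finset E, (P : Set E) ⊆ A ∧ P.card = m ∧ ∀ x ∈ P, ∀ y ∈ P, x ≠ y → f ≤ dist x y) ∧
      ∀ Q : Finset E, (Q : Set E) ⊆ A → Q.card = m → ∃ x ∈ Q, ∃ y ∈ Q, x ≠ y ∧ dist x y ≤ f := by
  classical
  obtain ⟨M, hM⟩ := exists_bound hA hδ
  set m : ℕ := max N M + 2 with hm
  have hm2 : 2 ≤ m := by omega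
  have : Nonempty (Fin m) := ⟨⟨0, by omega⟩⟩
  have hne : (Finset.univ : Finset (Fin m)).offDiag.Nonempty := by
    refine ⟨(⟨0, by omega⟩, ⟨1, by omega⟩), ?_⟩
    rw [Finset.mem_offDiag]
    refine ⟨Finset.mem_univ _, Finset.mem_univ _, ?_⟩
    intro h
    simp at h
  let g : (Fin m → E) → ℝ := fun v =>
    (Finset.univ : Finset (Fin m)).offDiag.inf' hne (fun p => dist (v p.1) (v p.2))
  have hg : Continuous g := by
    refine Continuous.finset_inf'_apply hne ?_
    intro p _
    exact (continuous_apply p.1).dist (continuous_apply p.2)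
  have hK : IsCompact (Set.pi Set.univ fun _ : Fin m => A) := isCompact_univ_pi fun _ => hA
  obtain ⟨Q0, hQ0, hQ0c⟩ := hinf.exists_subset_card_eq m
  have hQe : Nonempty (Fin m ≃ Q0) := ⟨(Finset.equivFinOfCardEq hQ0c).symm⟩
  obtain ⟨e⟩ := hQe
  have hKne : (Set.pi Set.univ fun _ : Fin m => A).Nonempty :=
    ⟨fun i => (e i : E), fun i _ => hQ0 (e i).2⟩
  obtain ⟨v, hv, hmax⟩ := hK.exists_isMaxOn hKne hg.continuousOn
  have hkey : ∀ Q : Finset E, (Q : Set E) ⊆ A → Q.card = m → ∀ c : ℝ,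
      (∀ x ∈ Q, ∀ y ∈ Q, x ≠ y → c < dist x y) → c < g v := by
    intro Q hQ hQc c hc
    let e' : Fin m ≃ Q := (Finset.equivFinOfCardEq hQc).symm
    have h1 : (fun i => (e' i : E)) ∈ Set.pi Set.univ fun _ : Fin m => A :=
      fun i _ => hQ (e' i).2
    have h2 : g (fun i => (e' i : E)) ≤ g v := hmax h1
    refine lt_of_lt_of_le ?_ h2
    rw [Finset.lt_inf'_iff]
    intro p hp
    rw [Finset.mem_offDiag] at hp
    refine hc _ (e' p.1).2 _ (e' p.2).2 ?_
    intro h
    exact hp.2.2 (e'.injective (Subtype.ext h))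
  have hpos : 0 < g v := by
    refine hkey Q0 hQ0 hQ0c 0 ?_
    intro x _ y _ hxy
    exact dist_pos.2 hxy
  have hvle : ∀ i j, i ≠ j → g v ≤ dist (v i) (v j) := by
    intro i j hij
    exact Finset.inf'_le (f := fun p : Fin m × Fin m => dist (v p.1) (v p.2))
      (Finset.mem_offDiag.2 ⟨Finset.mem_univ i, Finset.mem_univ j, hij⟩ : (i, j) ∈ _)
  have hinj : Function.Injective v := by
    intro i j hij
    by_contra hne'
    have := hvle i j hne'
    rw [hij, dist_self] at this
    linarith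
  have hPc : (Finset.univ.image v).card = m := by
    rw [Finset.card_image_of_injective _ hinj]
    simp
  have hPA : ((Finset.univ.image v : Finset E) : Set E) ⊆ A := by
    intro x hx
    simp only [Finset.coe_image, Finset.coe_univ, Set.image_univ, Set.mem_range] at hx
    obtain ⟨i, rfl⟩ := hx
    exact hv i (Set.mem_univ _)
  have hPsep : ∀ x ∈ Finset.univ.image v, ∀ y ∈ Finset.univ.image v, x ≠ y → g v ≤ dist x y := by
    intro x hx y hy hxy
    rw [Finset.mem_image] at hx hy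
    obtain ⟨i, _, rfl⟩ := hx
    obtain ⟨j, _, rfl⟩ := hy
    exact hvle i j (fun h => hxy (by rw [h]))
  refine ⟨m, by omega, g v, hpos, ?_, ⟨_, hPA, hPc, hPsep⟩, ?_⟩
  · by_contra hcon
    rw [not_lt] at hcon
    have := hM _ hPA (fun x hx y hy hxy => hcon.trans (hPsep x hx y hy hxy))
    omega
  · intro Q hQ hQc
    by_contra hcon
    push Not at hcon
    exact lt_irrefl _ (hkey Q hQ hQc (g v) hcon)

/-- the general statement, for a subset `M` in which every point can be moved a little -/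
private lemma general {M : Set E}
    (hM : ∀ x ∈ M, ∀ ε > 0, ∃ γ : ℝ → E, ContinuousOn γ (Icc 0 1) ∧ γ 0 = x ∧
      (∃ t ∈ Icc (0 : ℝ) 1, γ t ≠ x) ∧ ∀ t ∈ Icc (0 : ℝ) 1, γ t ∈ M ∩ ball x ε)
    {C : Set E} (hC : CompactRegion M C) (hdis : ¬ IsPreconnected C) (N : ℕ) :
    ∃ n ≥ N, ∃ P : Finset E, Extremal C n P ∧ ∃ p, FreelyMovable C P p := by
  classical
  obtain ⟨hCc, hCr⟩ := hC
  rw [isPreconnected_closed_iff] at hdis
  push Not at hdis
  obtain ⟨t, t', ht, ht', hcov, hne, hne', hempty⟩ := hdis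
  set A : Set E := C ∩ t with hAdef
  set B : Set E := C ∩ t' with hBdef
  have hAc : IsCompact A := hCc.inter_right ht
  have hBc : IsCompact B := hCc.inter_right ht'
  have hAC : A ⊆ C := inter_subset_left
  have hBC : B ⊆ C := inter_subset_left
  have hAB : Disjoint A B := by
    rw [Set.disjoint_left]
    rintro x ⟨hx1, hx2⟩ ⟨_, hx3⟩
    have : x ∈ C ∩ (t ∩ t') := ⟨hx1, hx2, hx3⟩
    rw [hempty] at this
    exact this
  have hCAB : ∀ x ∈ C, x ∈ A ∨ x ∈ B := by
    intro x hx
    rcases hcov hx with h | h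
    · exact Or.inl ⟨hx, h⟩
    · exact Or.inr ⟨hx, h⟩
  obtain ⟨δ, hδ, hdist⟩ : ∃ δ > 0, ∀ x ∈ A, ∀ y ∈ B, δ ≤ dist x y := by
    obtain ⟨r, hr, h⟩ := hAB.exists_thickenings hAc hBc.isClosed
    refine ⟨r, hr, ?_⟩
    intro x hx y hy
    by_contra hlt
    rw [not_le] at hlt
    rw [Set.disjoint_left] at h
    exact h (mem_thickening_iff.2 ⟨x, hx, by rwa [dist_comm]⟩ : y ∈ thickening r A)
      (self_subset_thickening hr B hy)
  -- points of the relative interior
  set I : Set E := {x | x ∈ M ∧ ∃ ε > 0, M ∩ ball x ε ⊆ C} with hI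
  have hIC : I ⊆ C := by
    rintro x ⟨hx, ε, hε, h⟩
    exact h ⟨hx, mem_ball_self hε⟩
  -- near every point of `C` there is a point of the relative interior in the same part
  have hnearA : ∀ x ∈ A, ∀ ε > 0, ∃ y ∈ I, y ∈ A ∧ dist y x < ε := by
    intro x hx ε hε
    have hx' : x ∈ closure I := by
      rw [← hCr]
      exact hAC hx
    obtain ⟨y, hy, hyx⟩ := Metric.mem_closure_iff.1 hx' (min ε δ) (lt_min hε hδ)
    refine ⟨y, hy, ?_, by rw [dist_comm]; exact lt_of_lt_of_le hyx (min_le_left _ _)⟩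
    rcases hCAB y (hIC hy) with h | h
    · exact h
    · exact absurd (hdist x hx y h) (not_le.2 (lt_of_lt_of_le hyx (min_le_right _ _)))
  have hnearB : ∀ x ∈ B, ∀ ε > 0, ∃ y ∈ I, y ∈ B ∧ dist y x < ε := by
    intro x hx ε hε
    have hx' : x ∈ closure I := by
      rw [← hCr]
      exact hBC hx
    obtain ⟨y, hy, hyx⟩ := Metric.mem_closure_iff.1 hx' (min ε δ) (lt_min hε hδ)
    refine ⟨y, hy, ?_, by rw [dist_comm]; exact lt_of_lt_of_le hyx (min_le_left _ _)⟩
    rcases hCAB y (hIC hy) with h | h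
    · exfalso
      have h1 := hdist y h x hx
      rw [dist_comm] at h1
      exact absurd h1 (not_le.2 (lt_of_lt_of_le hyx (min_le_right _ _)))
    · exact h
  -- `A` is infinite
  have hAinf : A.Infinite := by
    intro hfin
    obtain ⟨x0, hx0⟩ := hne
    obtain ⟨x, hxI, hxA, -⟩ := hnearA x0 hx0 1 one_pos
    obtain ⟨hxM, ε, hε, hball⟩ := hxI
    have hfin' : (A \ {x}).Finite := hfin.subset sdiff_subset
    obtain ⟨η, hη, hη'⟩ : ∃ η > 0, ∀ y ∈ A \ {x}, η ≤ dist x y := by
      have hcl : IsClosed (A \ {x}) := hfin'.isClosed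
      have hx : x ∈ (A \ {x})ᶜ := fun h => h.2 rfl
      obtain ⟨η, hη, h⟩ := Metric.isOpen_iff.1 hcl.isOpen_compl x hx
      refine ⟨η, hη, fun y hy => ?_⟩
      by_contra hlt
      rw [not_le] at hlt
      exact h (mem_ball'.2 hlt) hy
    obtain ⟨γ, -, -, ⟨s, hs, hsx⟩, hγ⟩ := hM x hxM (min ε (min η δ)) (by positivity)
    obtain ⟨h1, h2⟩ := hγ s hs
    rw [mem_ball] at h2
    have h3 : γ s ∈ C := hball ⟨h1, mem_ball.2 (lt_of_lt_of_le h2 (min_le_left _ _))⟩
    have h4 : dist x (γ s) < δ := by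
      rw [dist_comm]
      exact lt_of_lt_of_le h2 ((min_le_right _ _).trans (min_le_right _ _))
    have h5 : dist x (γ s) < η := by
      rw [dist_comm]
      exact lt_of_lt_of_le h2 ((min_le_right _ _).trans (min_le_left _ _))
    rcases hCAB _ h3 with h | h
    · exact absurd (hη' _ ⟨h, hsx⟩) (not_le.2 h5)
    · exact absurd (hdist x hxA _ h) (not_le.2 h4)
  obtain ⟨m, hmN, f, hf, hfδ, ⟨P0, hP0A, hP0c, hP0s⟩, hjump⟩ := exists_jump hAc hAinf hδ N
  -- the maximal number of points of `A` at distances at least `f`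
  obtain ⟨NA, hNA⟩ := exists_bound hAc hf
  obtain ⟨PA, ⟨hPA, hPAs⟩, hPAmax⟩ := exists_maxcard
    (fun P : Finset E => (P : Set E) ⊆ A ∧ ∀ x ∈ P, ∀ y ∈ P, x ≠ y → f ≤ dist x y)
    ⟨P0, hP0A, hP0s⟩ (fun P hP => hNA P hP.1 hP.2)
  have hmPA : m ≤ PA.card := by
    rw [← hP0c]
    exact hPAmax P0 ⟨hP0A, hP0s⟩
  -- the maximal number of points of `B` at distances larger than `f`
  obtain ⟨NB, hNB⟩ := exists_bound hBc hf
  obtain ⟨b0, hb0⟩ := hne'
  obtain ⟨PB, ⟨hPB, hPBs⟩, hPBmax⟩ := exists_maxcard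
    (fun P : Finset E => (P : Set E) ⊆ B ∧ ∀ x ∈ P, ∀ y ∈ P, x ≠ y → f < dist x y)
    ⟨{b0}, by
      refine ⟨by simpa using (show b0 ∈ B from hb0), ?_⟩
      intro x hx y hy hxy
      rw [Finset.mem_singleton] at hx hy
      exact absurd (hx.trans hy.symm) hxy⟩
    (fun P hP => hNB P hP.1 (fun x hx y hy hxy => (hP.2 x hx y hy hxy).le))
  have hPB1 : 1 ≤ PB.card := by
    have := hPBmax {b0} ⟨by simpa using (show b0 ∈ B from hb0), by
      intro x hx y hy hxy
      rw [Finset.mem_singleton] at hx hy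
      exact absurd (hx.trans hy.symm) hxy⟩
    simpa using this
  obtain ⟨q0, hq0⟩ : PB.Nonempty := Finset.card_pos.1 (by omega)
  -- the distance of `q0` to the other points of `PB`
  obtain ⟨η, hη, hη'⟩ : ∃ η > 0, ∀ y ∈ PB.erase q0, f + η ≤ dist q0 y := by
    by_cases hne2 : (PB.erase q0).Nonempty
    · obtain ⟨y1, hy1, hy1'⟩ := Finset.exists_min_image (PB.erase q0) (fun y => dist q0 y) hne2
      refine ⟨dist q0 y1 - f, ?_, fun y hy => ?_⟩
      · have := hPBs q0 hq0 y1 (Finset.mem_of_mem_erase hy1) (Finset.ne_of_mem_erase hy1).symm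
        linarith
      · have := hy1' y hy
        linarith
    · refine ⟨1, one_pos, fun y hy => ?_⟩
      exact absurd ⟨y, hy⟩ hne2
  obtain ⟨q, hqI, hqB, hqq⟩ := hnearB q0 (hPB hq0) (η / 2) (by positivity)
  have hq' : ∀ y ∈ PB.erase q0, f + η / 2 ≤ dist q y := by
    intro y hy
    have h1 := hη' y hy
    have h2 : dist q0 y ≤ dist q q0 + dist q y := by
      have := dist_triangle q0 q y
      rwa [dist_comm q0 q] at this
    linarith
  have hqnot : q ∉ PB.erase q0 := by
    intro h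
    have := hq' q h
    rw [dist_self] at this
    linarith
  -- the extremal set
  set R : Finset E := PA ∪ PB.erase q0 with hR
  have hdisj : Disjoint PA (PB.erase q0) := by
    rw [Finset.disjoint_left]
    intro x hx hy
    exact Set.disjoint_left.1 hAB (hPA hx) (hPB (Finset.mem_of_mem_erase hy))
  have hRfar : ∀ z ∈ B, (∀ y ∈ PB.erase q0, f < dist z y) → ∀ x ∈ R, f < dist z x := by
    intro z hz hzy x hx
    rw [hR, Finset.mem_union] at hx
    rcases hx with h | h
    · have := hdist x (hPA h) z hz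
      rw [dist_comm]
      linarith
    · exact hzy x h
  have hqR : q ∉ R := by
    intro h
    have := hRfar q hqB (fun y hy => by have := hq' y hy; linarith) q h
    rw [dist_self] at this
    linarith
  have hRs : ∀ x ∈ R, ∀ y ∈ R, x ≠ y → f ≤ dist x y := by
    intro x hx y hy hxy
    rw [hR, Finset.mem_union] at hx hy
    rcases hx with hx | hx <;> rcases hy with hy | hy
    · exact hPAs x hx y hy hxy
    · have := hdist x (hPA hx) y (hPB (Finset.mem_of_mem_erase hy))
      linarith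
    · have := hdist y (hPA hy) x (hPB (Finset.mem_of_mem_erase hx))
      rw [dist_comm]
      linarith
    · exact (hPBs x (Finset.mem_of_mem_erase hx) y (Finset.mem_of_mem_erase hy) hxy).le
  have hcard : (insert q R).card = PA.card + PB.card := by
    rw [Finset.card_insert_of_notMem hqR, hR, Finset.card_union_of_disjoint hdisj,
      Finset.card_erase_of_mem hq0]
    omega
  -- strictly separated sets have fewer points
  have hstrictA : ∀ Q : Finset E, (Q : Set E) ⊆ A → (∀ x ∈ Q, ∀ y ∈ Q, x ≠ y → f < dist x y) →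
      Q.card < m := by
    intro Q hQ hQs
    by_contra hcon
    rw [not_lt] at hcon
    obtain ⟨Q', hQ', hQ'c⟩ := Finset.exists_subset_card_eq hcon
    obtain ⟨x, hx, y, hy, hxy, hle⟩ := hjump Q' (fun z hz => hQ (hQ' hz)) hQ'c
    exact absurd hle (not_le.2 (hQs x (hQ' hx) y (hQ' hy) hxy))
  have hstrictC : ∀ Q : Finset E, (Q : Set E) ⊆ C → Q.card = PA.card + PB.card →
      ∃ x ∈ Q, ∃ y ∈ Q, x ≠ y ∧ dist x y ≤ f := by
    intro Q hQ hQc
    by_contra hcon
    push Not at hcon
    have h1 : (Q.filter (fun x => x ∈ A)).card < m := by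
      refine hstrictA _ (fun x hx => ?_) ?_
      · exact (Finset.mem_filter.1 hx).2
      · intro x hx y hy hxy
        exact hcon x (Finset.mem_filter.1 hx).1 y (Finset.mem_filter.1 hy).1 hxy
    have h2 : (Q.filter (fun x => ¬ x ∈ A)).card ≤ PB.card := by
      refine hPBmax _ ⟨fun x hx => ?_, ?_⟩
      · have h3 := Finset.mem_filter.1 hx
        rcases hCAB x (hQ h3.1) with h | h
        · exact absurd h h3.2
        · exact h
      · intro x hx y hy hxy
        exact hcon x (Finset.mem_filter.1 hx).1 y (Finset.mem_filter.1 hy).1 hxy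
    have h3 := Finset.card_filter_add_card_filter_not (s := Q) (fun x => x ∈ A)
    omega
  have hPs : ∀ x ∈ insert q R, ∀ y ∈ insert q R, x ≠ y → f ≤ dist x y := by
    intro x hx y hy hxy
    rw [Finset.mem_insert] at hx hy
    have hqfar := hRfar q hqB (fun y hy => by have := hq' y hy; linarith)
    rcases hx with rfl | hx <;> rcases hy with rfl | hy
    · exact absurd rfl hxy
    · exact (hqfar y hy).le
    · rw [dist_comm]
      exact (hqfar x hx).le
    · exact hRs x hx y hy hxy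
  have hPC : ((insert q R : Finset E) : Set E) ⊆ C := by
    intro x hx
    rw [Finset.mem_coe, Finset.mem_insert] at hx
    rcases hx with rfl | hx
    · exact hBC hqB
    · rw [hR, Finset.mem_union] at hx
      rcases hx with hx | hx
      · exact hAC (hPA hx)
      · exact hBC (hPB (Finset.mem_of_mem_erase hx))
  have hmin : IsMinDist (insert q R) f := by
    refine ⟨?_, hPs⟩
    obtain ⟨x, hx, y, hy, hxy, hle⟩ := hstrictC _ hPC hcard
    exact ⟨x, hx, y, hy, hxy, le_antisymm hle (hPs x hx y hy hxy)⟩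
  refine ⟨PA.card + PB.card, by omega, insert q R, ⟨hPC, hcard, f, hmin, ?_⟩, q, ?_⟩
  · intro Q hQ hQc g hg
    obtain ⟨x, hx, y, hy, hxy, hle⟩ := hstrictC Q hQ hQc
    exact (hg.2 x hx y hy hxy).trans hle
  · refine ⟨Finset.mem_insert_self _ _, ?_⟩
    obtain ⟨hqM, ε, hε, hball⟩ := hqI
    obtain ⟨γ, hγc, hγ0, hγne, hγ⟩ := hM q hqM (min ε (min (η / 2) δ)) (by positivity)
    refine ⟨γ, hγc, hγ0, hγne, fun s hs => ?_⟩
    obtain ⟨h1, h2⟩ := hγ s hs
    rw [mem_ball] at h2
    have h3 : γ s ∈ C := hball ⟨h1, mem_ball.2 (lt_of_lt_of_le h2 (min_le_left _ _))⟩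
    have h4 : dist (γ s) q < δ :=
      lt_of_lt_of_le h2 ((min_le_right _ _).trans (min_le_right _ _))
    have h5 : dist (γ s) q < η / 2 :=
      lt_of_lt_of_le h2 ((min_le_right _ _).trans (min_le_left _ _))
    have h6 : γ s ∈ B := by
      rcases hCAB _ h3 with h | h
      · exact absurd (hdist _ h q hqB) (not_le.2 h4)
      · exact h
    have h7 : ∀ x ∈ R, f < dist (γ s) x := by
      refine hRfar _ h6 fun y hy => ?_
      have h8 := hq' y hy
      have h9 : dist q y ≤ dist (γ s) q + dist (γ s) y := by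
        have := dist_triangle q (γ s) y
        rwa [dist_comm q (γ s)] at this
      linarith
    refine ⟨h3, fun x hx hxq => ?_⟩
    have hxR : x ∈ R := by
      rcases Finset.mem_insert.1 hx with h | h
      · exact absurd h hxq
      · exact h
    have h8 := h7 x hxR
    refine ⟨?_, fun g hg => ?_⟩
    · intro h
      rw [h, dist_self] at h8
      linarith
    · obtain ⟨x', hx', y', hy', hxy', hle⟩ := hmin.1
      have := hg.2 x' hx' y' hy' hxy'
      linarith

end General

/-- paths in a Euclidean space -/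
private lemma path_univ {d : ℕ} (hd : 2 ≤ d) : ∀ x ∈ (univ : Set (EuclideanSpace ℝ (Fin d))),
    ∀ ε > 0, ∃ γ : ℝ → EuclideanSpace ℝ (Fin d), ContinuousOn γ (Icc 0 1) ∧ γ 0 = x ∧
      (∃ t ∈ Icc (0 : ℝ) 1, γ t ≠ x) ∧ ∀ t ∈ Icc (0 : ℝ) 1, γ t ∈ univ ∩ ball x ε := by
  intro x _ ε hε
  have : Nontrivial (EuclideanSpace ℝ (Fin d)) := by
    have : Nonempty (Fin d) := ⟨⟨0, by omega⟩⟩
    infer_instance
  obtain ⟨v, hv⟩ := exists_norm_eq (EuclideanSpace ℝ (Fin d)) (show (0 : ℝ) ≤ ε / 2 by positivity)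
  refine ⟨fun t => x + t • v, by fun_prop, by simp, ⟨1, by simp, ?_⟩, fun t ht => ⟨mem_univ _, ?_⟩⟩
  · simp only [one_smul, ne_eq, add_eq_left]
    intro h
    rw [h, norm_zero] at hv
    linarith
  · rw [mem_ball, dist_eq_norm, add_sub_cancel_left, norm_smul, hv, Real.norm_eq_abs,
      abs_of_nonneg ht.1]
    nlinarith [ht.1, ht.2]

/-- paths in a sphere -/
private lemma path_sphere {d : ℕ} (hd : 2 ≤ d) :
    ∀ x ∈ sphere (0 : EuclideanSpace ℝ (Fin (d + 1))) 1,
    ∀ ε > 0, ∃ γ : ℝ → EuclideanSpace ℝ (Fin (d + 1)), ContinuousOn γ (Icc 0 1) ∧ γ 0 = x ∧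
      (∃ t ∈ Icc (0 : ℝ) 1, γ t ≠ x) ∧
      ∀ t ∈ Icc (0 : ℝ) 1, γ t ∈ sphere (0 : EuclideanSpace ℝ (Fin (d + 1))) 1 ∩ ball x ε := by
  intro x hx ε hε
  have hx1 : ‖x‖ = 1 := by simpa using hx
  obtain ⟨u, hu1, hxu⟩ : ∃ u : EuclideanSpace ℝ (Fin (d + 1)), ‖u‖ = 1 ∧ inner ℝ x u = 0 := by
    have hfr : Module.finrank ℝ (EuclideanSpace ℝ (Fin (d + 1))) = d + 1 := by simp
    have hlt : (ℝ ∙ x) ≠ ⊤ := by
      intro h
      have h1 := finrank_span_singleton (K := ℝ) (v := x) (by
        intro h0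
        rw [h0, norm_zero] at hx1
        exact zero_ne_one hx1)
      rw [h, finrank_top, hfr] at h1
      omega
    have hne : (ℝ ∙ x)ᗮ ≠ ⊥ := by
      intro h
      exact hlt (Submodule.orthogonal_eq_bot_iff.1 h)
    obtain ⟨w, hw, hw0⟩ := Submodule.exists_mem_ne_zero_of_ne_bot hne
    refine ⟨(‖w‖⁻¹ : ℝ) • w, ?_, ?_⟩
    · rw [norm_smul, norm_inv, norm_norm, inv_mul_cancel₀ (norm_ne_zero_iff.2 hw0)]
    · rw [inner_smul_right, Submodule.mem_orthogonal_singleton_iff_inner_right.1 hw, mul_zero]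
  set g : ℝ → EuclideanSpace ℝ (Fin (d + 1)) := fun s => Real.cos s • x + Real.sin s • u with hg
  have hgc : Continuous g := by
    rw [hg]
    fun_prop
  have hg0 : g 0 = x := by simp [hg]
  have hgn : ∀ s, ‖g s‖ = 1 := by
    intro s
    have h1 : ‖g s‖ ^ 2 = 1 := by
      rw [hg]
      simp only
      rw [norm_add_sq_real, norm_smul, norm_smul, inner_smul_left, inner_smul_right, hxu, hx1, hu1]
      simp only [Real.norm_eq_abs, mul_one, sq_abs, mul_zero, add_zero]
      exact Real.cos_sq_add_sin_sq s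
    have h2 : (0 : ℝ) ≤ ‖g s‖ := norm_nonneg _
    nlinarith
  obtain ⟨δ, hδ, hδ'⟩ := Metric.continuous_iff.1 hgc 0 ε hε
  set r : ℝ := min (δ / 2) 1 with hr
  have hr0 : 0 < r := by positivity
  refine ⟨fun t => g (r * t), by fun_prop, by simp [hg0], ⟨1, by simp, ?_⟩, fun t ht => ⟨?_, ?_⟩⟩
  · intro h
    have h1 : inner ℝ u (g (r * 1)) = inner ℝ u x := congrArg (fun z => inner ℝ u z) h
    have h2 : inner ℝ u x = 0 := by rw [real_inner_comm]; exact hxu
    rw [hg] at h1
    simp only [mul_one] at h1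
    rw [inner_add_right, inner_smul_right, inner_smul_right, h2, real_inner_self_eq_norm_sq,
      hu1] at h1
    have h3 : 0 < Real.sin r := by
      refine Real.sin_pos_of_pos_of_lt_pi hr0 ?_
      have : r ≤ 1 := min_le_right _ _
      linarith [Real.pi_gt_three]
    linarith
  · simp [hgn]
  · rw [mem_ball]
    have h1 := hδ' (r * t) (by
      rw [Real.dist_eq, sub_zero, abs_of_nonneg (mul_nonneg hr0.le ht.1)]
      have : r ≤ δ / 2 := min_le_left _ _
      nlinarith [ht.1, ht.2])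
    rwa [hg0] at h1

/-- For every disconnected compact region of a Euclidean space `ℝ^d` or of the unit sphere of
`ℝ^(d+1)`, `d ≥ 2`, there are infinitely many `n` for which some extremal `n`-point set has a
freely movable point. -/
theorem result : ∀ d : ℕ, 2 ≤ d →
    (∀ C : Set (EuclideanSpace ℝ (Fin d)), CompactRegion univ C → ¬ IsPreconnected C →
      ∀ N : ℕ, ∃ n ≥ N, ∃ P : Finset (EuclideanSpace ℝ (Fin d)),
        Extremal C n P ∧ ∃ p, FreelyMovable C P p) ∧
    (∀ C : Set (EuclideanSpace ℝ (Fin (d + 1))), CompactRegion (sphere 0 1) C →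
      ¬ IsPreconnected C → ∀ N : ℕ, ∃ n ≥ N, ∃ P : Finset (EuclideanSpace ℝ (Fin (d + 1))),
        Extremal C n P ∧ ∃ p, FreelyMovable C P p) := by
  intro d hd
  exact ⟨fun C hC hdis N => general (path_univ hd) hC hdis N,
    fun C hC hdis N => general (path_sphere hd) hC hdis N⟩

end Pool.Agent.Results.MP_251bf7_co.DisconnectedRegions
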