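import Mathlib

set_option autoImplicit false

/-!
# Freely movable points in optimal point dispersions: generic regions

Let `M` be `ℝ^d` or the unit sphere of `ℝ^(d+1)`, `d ≥ 2` (or any complete connected metric space
which is locally almost isometric to `ℝ^d`). Every compact region `C` of `M` can be enlarged, inside
an arbitrarily small ball around any of its boundary points, to a compact region `C'`, connected if
`C` is connected, such that for all sufficiently large `n` some extremal `n`-point set has a freely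
movable point, in `C'` and in all compact regions close enough to `C'`. Hence, in the sense of Baire
category, a generic compact region of `M`, and a generic connected compact region of `M`, has such
extremal sets for infinitely many `n`.
-/

namespace Pool.Agent.Results.MP_251bf7_co.GenericRegions

open Metric Set TopologicalSpace

/-- Euclidean space. -/
abbrev Sp (d : ℕ) : Type := EuclideanSpace ℝ (Fin d)

/-- `f` is the minimum distance between two different points of the finite set `P`. -/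
def IsMinDist {E : Type*} [MetricSpace E] (P : Finset E) (f : ℝ) : Prop :=
  (∃ x ∈ P, ∃ y ∈ P, x ≠ y ∧ dist x y = f) ∧ ∀ x ∈ P, ∀ y ∈ P, x ≠ y → f ≤ dist x y

/-- `P` is an extremal `n`-point set of `C`: its minimum distance is the largest possible for
`n` points of `C`. -/
def Extremal {E : Type*} [MetricSpace E] (C : Set E) (n : ℕ) (P : Finset E) : Prop :=
  (P : Set E) ⊆ C ∧ P.card = n ∧
    ∃ f, IsMinDist P f ∧ ∀ Q : Finset E, (Q : Set E) ⊆ C → Q.card = n → ∀ g, IsMinDist Q g → g ≤ f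

/-- The point `p` of `P` is freely movable within `C`: a non-constant path in `C` starts at `p`
such that, when `p` is moved along it and the other points of `P` stay fixed, the moving point
never meets another point of `P` and its distances to the other points of `P` never drop below the
minimum distance of `P`. -/
def FreelyMovable {E : Type*} [MetricSpace E] (C : Set E) (P : Finset E) (p : E) : Prop :=
  p ∈ P ∧ ∃ γ : ℝ → E, ContinuousOn γ (Icc 0 1) ∧ γ 0 = p ∧ (∃ t ∈ Icc (0 : ℝ) 1, γ t ≠ p) ∧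
    ∀ t ∈ Icc (0 : ℝ) 1, γ t ∈ C ∧ ∀ x ∈ P, x ≠ p → γ t ≠ x ∧
      ∀ f, IsMinDist P f → f ≤ dist (γ t) x

/-- A compact region: a compact set which is the closure of its interior. -/
def CompactRegion {M : Type*} [MetricSpace M] (C : Set M) : Prop :=
  IsCompact C ∧ C = closure (interior C)

/-- Some extremal `n`-point set of `C` has a freely movable point. -/
def Good {E : Type*} [MetricSpace E] (C : Set E) (n : ℕ) : Prop :=
  ∃ P : Finset E, Extremal C n P ∧ ∃ p, FreelyMovable C P p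

/-- The Hausdorff distance of `A` and `B` is at most `δ`. -/
def HClose {M : Type*} [MetricSpace M] (δ : ℝ) (A B : Set M) : Prop :=
  (∀ x ∈ A, ∃ y ∈ B, dist x y ≤ δ) ∧ ∀ y ∈ B, ∃ x ∈ A, dist y x ≤ δ

/-- `A` and `B` have Hausdorff distance at most `δ`, and so have their complements. -/
def Near {M : Type*} [MetricSpace M] (δ : ℝ) (A B : Set M) : Prop :=
  HClose δ A B ∧ HClose δ Aᶜ Bᶜ

/-- The nonempty compact regions `C ≠ M` of `M`, each written as the pair of `C` and of the closure of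
its complement. As a subspace of the product of the space of nonempty compact sets and the space of
closed sets, it carries the distance `max (dist_H(C, C'), dist_H(Cᶜ, C'ᶜ))`, where `dist_H` is the
Hausdorff distance. -/
def Reg (M : Type*) [MetricSpace M] : Set (NonemptyCompacts M × Closeds M) :=
  {p | CompactRegion (p.1 : Set M) ∧ (p.1 : Set M) ≠ univ ∧
    (p.2 : Set M) = closure (p.1 : Set M)ᶜ}

/-- The connected compact regions, as a subspace of the space `Reg M` of compact regions. -/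
def RegC (M : Type*) [MetricSpace M] : Set (NonemptyCompacts M × Closeds M) :=
  {p | p ∈ Reg M ∧ IsConnected (p.1 : Set M)}

/-- The metric space `M` is locally almost isometric to `ℝ^d`: for each point `x` and each `κ > 0`, a
neighbourhood of `x` is contained in the image of a ball of `ℝ^d` under a map which changes the
distances by factors between `1 - κ` and `1 + κ`. -/
def LocallyFlat (d : ℕ) (M : Type*) [MetricSpace M] : Prop :=
  ∀ x : M, ∀ κ > 0, ∃ r > 0, ∃ φ : Sp d → M, φ 0 = x ∧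
    (∀ y ∈ ball (0 : Sp d) r, ∀ z ∈ ball (0 : Sp d) r,
      (1 - κ) * dist y z ≤ dist (φ y) (φ z) ∧ dist (φ y) (φ z) ≤ (1 + κ) * dist y z) ∧
    ∃ s > 0, ball x s ⊆ φ '' ball (0 : Sp d) r

section General

variable {E : Type*} [MetricSpace E]

/-- `f` is the largest minimum distance of `n` points of `C` -/
private def SepMax (C : Set E) (n : ℕ) (f : ℝ) : Prop :=
  0 < f ∧
  (∃ P : Finset E, (P : Set E) ⊆ C ∧ P.card = n ∧
    ∀ x ∈ P, ∀ y ∈ P, x ≠ y → f ≤ dist x y) ∧
  ∀ Q : Finset E, (Q : Set E) ⊆ C → Q.card = n → ∃ x ∈ Q, ∃ y ∈ Q, x ≠ y ∧ dist x y ≤ f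

/-- a bound for the number of points of a compact set at mutual distance at least `f` -/
private lemma exists_bound {K : Set E} (hK : IsCompact K) {f : ℝ} (hf : 0 < f) :
    ∃ N : ℕ, ∀ P : Finset E, (P : Set E) ⊆ K →
      (∀ x ∈ P, ∀ y ∈ P, x ≠ y → f ≤ dist x y) → P.card ≤ N := by
  obtain ⟨t, ht, hcov⟩ := Metric.totallyBounded_iff.1 hK.totallyBounded (f / 2) (by positivity)
  refine ⟨ht.toFinset.card, fun P hP hsep => ?_⟩
  have h1 : ∀ x ∈ P, ∃ y ∈ ht.toFinset, dist x y < f / 2 := by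
    intro x hx
    have := hcov (hP hx)
    simp only [mem_iUnion, mem_ball, exists_prop] at this
    obtain ⟨y, hy, hxy⟩ := this
    exact ⟨y, ht.mem_toFinset.2 hy, hxy⟩
  choose! g hg hg' using h1
  refine Finset.card_le_card_of_injOn g hg ?_
  intro x hx y hy hxy
  by_contra hne
  have h2 := hsep x hx y hy hne
  have h3 := hg' x hx
  have h4 := hg' y hy
  have h5 : dist x y ≤ dist x (g x) + dist y (g x) := dist_triangle_right _ _ _
  have h6 : g x = g y := hxy
  rw [h6] at h5
  rw [h6] at h3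
  linarith

private lemma exists_sepMax {A : Set E} (hA : IsCompact A) (hinf : A.Infinite) {m : ℕ}
    (hm2 : 2 ≤ m) : ∃ f, SepMax A m f := by
  classical
  have : Nonempty (Fin m) := ⟨⟨0, by omega⟩⟩
  have hne : (Finset.univ : Finset (Fin m)).offDiag.Nonempty := by
    refine ⟨(⟨0, by omega⟩, ⟨1, by omega⟩), ?_⟩
    rw [Finset.mem_offDiag]
    refine ⟨Finset.mem_univ _, Finset.mem_univ _, ?_⟩
    intro h
    simp at h
  let g : (Fin m → E) → ℝ := fun v =>
    (Finset.univ : Finset (Fin m)).offDiag.inf' hne (fun p => dist (v p.1) (v p.2))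
  have hg : Continuous g := by
    refine Continuous.finset_inf'_apply hne ?_
    intro p _
    exact (continuous_apply p.1).dist (continuous_apply p.2)
  have hK : IsCompact (Set.pi Set.univ fun _ : Fin m => A) := isCompact_univ_pi fun _ => hA
  obtain ⟨Q0, hQ0, hQ0c⟩ := hinf.exists_subset_card_eq m
  have hQe : Nonempty (Fin m ≃ Q0) := ⟨(Finset.equivFinOfCardEq hQ0c).symm⟩
  obtain ⟨e⟩ := hQe
  have hKne : (Set.pi Set.univ fun _ : Fin m => A).Nonempty :=
    ⟨fun i => (e i : E), fun i _ => hQ0 (e i).2⟩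
  obtain ⟨v, hv, hmax⟩ := hK.exists_isMaxOn hKne hg.continuousOn
  have hkey : ∀ Q : Finset E, (Q : Set E) ⊆ A → Q.card = m → ∀ c : ℝ,
      (∀ x ∈ Q, ∀ y ∈ Q, x ≠ y → c < dist x y) → c < g v := by
    intro Q hQ hQc c hc
    let e' : Fin m ≃ Q := (Finset.equivFinOfCardEq hQc).symm
    have h1 : (fun i => (e' i : E)) ∈ Set.pi Set.univ fun _ : Fin m => A :=
      fun i _ => hQ (e' i).2
    have h2 : g (fun i => (e' i : E)) ≤ g v := hmax h1
    refine lt_of_lt_of_le ?_ h2
    rw [Finset.lt_inf'_iff]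
    intro p hp
    rw [Finset.mem_offDiag] at hp
    refine hc _ (e' p.1).2 _ (e' p.2).2 ?_
    intro h
    exact hp.2.2 (e'.injective (Subtype.ext h))
  have hpos : 0 < g v := by
    refine hkey Q0 hQ0 hQ0c 0 ?_
    intro x _ y _ hxy
    exact dist_pos.2 hxy
  have hvle : ∀ i j, i ≠ j → g v ≤ dist (v i) (v j) := by
    intro i j hij
    exact Finset.inf'_le (f := fun p : Fin m × Fin m => dist (v p.1) (v p.2))
      (Finset.mem_offDiag.2 ⟨Finset.mem_univ i, Finset.mem_univ j, hij⟩ : (i, j) ∈ _)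
  have hinj : Function.Injective v := by
    intro i j hij
    by_contra hne'
    have := hvle i j hne'
    rw [hij, dist_self] at this
    linarith
  have hPc : (Finset.univ.image v).card = m := by
    rw [Finset.card_image_of_injective _ hinj]
    simp
  have hPA : ((Finset.univ.image v : Finset E) : Set E) ⊆ A := by
    intro x hx
    simp only [Finset.coe_image, Finset.coe_univ, Set.image_univ, Set.mem_range] at hx
    obtain ⟨i, rfl⟩ := hx
    exact hv i (Set.mem_univ _)
  have hPsep : ∀ x ∈ Finset.univ.image v, ∀ y ∈ Finset.univ.image v, x ≠ y → g v ≤ dist x y := by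
    intro x hx y hy hxy
    rw [Finset.mem_image] at hx hy
    obtain ⟨i, _, rfl⟩ := hx
    obtain ⟨j, _, rfl⟩ := hy
    exact hvle i j (fun h => hxy (by rw [h]))
  refine ⟨g v, hpos, ⟨_, hPA, hPc, hPsep⟩, ?_⟩
  intro Q hQ hQc
  by_contra hcon
  push Not at hcon
  exact lt_irrefl _ (hkey Q hQ hQc (g v) hcon)

private lemma sepMax_small {A : Set E} (hA : IsCompact A) {η : ℝ} (hη : 0 < η) :
    ∃ N, ∀ n ≥ N, ∀ f, SepMax A n f → f < η := by
  obtain ⟨M, hM⟩ := exists_bound hA hη
  refine ⟨M + 1, fun n hn f hf => ?_⟩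
  by_contra hcon
  rw [not_lt] at hcon
  obtain ⟨-, ⟨P, hP, hPc, hPs⟩, -⟩ := hf
  have := hM P hP fun x hx y hy hxy => hcon.trans (hPs x hx y hy hxy)
  omega

/-- the largest minimum distance changes by at most `2 δ` -/
private lemma sepMax_close {A B : Set E} {δ : ℝ} (hAB : ∀ x ∈ A, ∃ y ∈ B, dist x y ≤ δ)
    {n : ℕ} {f g : ℝ} (hf : SepMax A n f) (hg : SepMax B n g) : f - 2 * δ ≤ g := by
  classical
  obtain ⟨hf0, ⟨P, hP, hPc, hPs⟩, -⟩ := hf
  obtain ⟨hg0, -, hmax⟩ := hg
  by_contra hcon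
  rw [not_le] at hcon
  have h1 : ∀ x ∈ P, ∃ y ∈ B, dist x y ≤ δ := fun x hx => hAB x (hP hx)
  choose! u hu hu' using h1
  have hinj : InjOn u P := by
    intro x hx y hy hxy
    by_contra hne
    have h2 := hPs x hx y hy hne
    have h3 := hu' x hx
    have h4 := hu' y hy
    have h5 : dist x y ≤ dist x (u x) + dist y (u x) := dist_triangle_right _ _ _
    rw [hxy] at h5
    rw [hxy] at h3
    linarith
  obtain ⟨x', hx', y', hy', hxy', hle⟩ := hmax (P.image u)
    (by
      intro y hy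
      rw [Finset.mem_coe, Finset.mem_image] at hy
      obtain ⟨x, hx, rfl⟩ := hy
      exact hu x hx)
    (by rw [Finset.card_image_of_injOn hinj, hPc])
  rw [Finset.mem_image] at hx' hy'
  obtain ⟨x, hx, rfl⟩ := hx'
  obtain ⟨y, hy, rfl⟩ := hy'
  have h2 := hPs x hx y hy (fun h => hxy' (by rw [h]))
  have h3 := hu' x hx
  have h4 := hu' y hy
  have h5 : dist x y ≤ dist x (u x) + dist (u x) (u y) + dist (u y) y := dist_triangle4 _ _ _ _
  rw [dist_comm (u y) y] at h5
  linarith

/-- If the point `q ∈ C` has distance more than `f` from all points of `Q` outside a set `T` of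
diameter less than `f`, then it can be made a freely movable point. -/
private lemma place {C T : Set E} {n : ℕ} (hn : 2 ≤ n) {Q : Finset E} {f : ℝ}
    (hf : 0 < f) (hQC : (Q : Set E) ⊆ C) (hQc : Q.card = n)
    (hQs : ∀ x ∈ Q, ∀ y ∈ Q, x ≠ y → f ≤ dist x y)
    (hmax : ∀ Q' : Finset E, (Q' : Set E) ⊆ C → Q'.card = n →
      ∃ x ∈ Q', ∃ y ∈ Q', x ≠ y ∧ dist x y ≤ f)
    (hT : ∀ x ∈ T, ∀ y ∈ T, dist x y < f) {q : E} (hq : q ∈ C)
    (hqQ : ∀ x ∈ Q, x ∉ T → f < dist q x)
    (hpath : ∀ ε > 0, ∃ γ : ℝ → E, ContinuousOn γ (Icc 0 1) ∧ γ 0 = q ∧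
      (∃ t ∈ Icc (0 : ℝ) 1, γ t ≠ q) ∧ ∀ t ∈ Icc (0 : ℝ) 1, γ t ∈ C ∩ ball q ε) :
    Good C n := by
  classical
  obtain ⟨t, htQ, ht⟩ : ∃ t ∈ Q, ∀ x ∈ Q, x ≠ t → x ∉ T := by
    by_cases h : ∃ t ∈ Q, t ∈ T
    · obtain ⟨t, htQ, htT⟩ := h
      refine ⟨t, htQ, fun x hx hxt hxT => ?_⟩
      have h1 := hQs x hx t htQ hxt
      have h2 := hT x hxT t htT
      linarith
    · obtain ⟨t, htQ⟩ : Q.Nonempty := Finset.card_pos.1 (by omega)
      exact ⟨t, htQ, fun x hx _ hxT => h ⟨x, hx, hxT⟩⟩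
  have hfar : ∀ x ∈ Q.erase t, f < dist q x := fun x hx =>
    hqQ x (Finset.mem_of_mem_erase hx) (ht x (Finset.mem_of_mem_erase hx) (Finset.ne_of_mem_erase hx))
  have hqn : q ∉ Q.erase t := by
    intro h
    have := hfar q h
    rw [dist_self] at this
    linarith
  have hcard : (insert q (Q.erase t)).card = n := by
    rw [Finset.card_insert_of_notMem hqn, Finset.card_erase_of_mem htQ]
    omega
  have hsub : ((insert q (Q.erase t) : Finset E) : Set E) ⊆ C := by
    intro x hx
    rw [Finset.mem_coe, Finset.mem_insert] at hx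
    rcases hx with rfl | hx
    · exact hq
    · exact hQC (Finset.mem_of_mem_erase hx)
  have hsep : ∀ x ∈ insert q (Q.erase t), ∀ y ∈ insert q (Q.erase t), x ≠ y → f ≤ dist x y := by
    intro x hx y hy hxy
    rw [Finset.mem_insert] at hx hy
    rcases hx with rfl | hx <;> rcases hy with rfl | hy
    · exact absurd rfl hxy
    · exact (hfar y hy).le
    · rw [dist_comm]
      exact (hfar x hx).le
    · exact hQs x (Finset.mem_of_mem_erase hx) y (Finset.mem_of_mem_erase hy) hxy
  obtain ⟨x0, hx0, y0, hy0, hxy0, hle0⟩ := hmax _ hsub hcard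
  have hmin : IsMinDist (insert q (Q.erase t)) f :=
    ⟨⟨x0, hx0, y0, hy0, hxy0, le_antisymm hle0 (hsep x0 hx0 y0 hy0 hxy0)⟩, hsep⟩
  refine ⟨insert q (Q.erase t), ⟨hsub, hcard, f, hmin, ?_⟩, q, Finset.mem_insert_self _ _, ?_⟩
  · intro R hR hRc g hg
    obtain ⟨x, hx, y, hy, hxy, hle⟩ := hmax R hR hRc
    exact (hg.2 x hx y hy hxy).trans hle
  · have hne : (Q.erase t).Nonempty := by
      rw [← Finset.card_pos, Finset.card_erase_of_mem htQ]
      omega
    obtain ⟨y1, hy1, hy1'⟩ := Finset.exists_min_image (Q.erase t) (fun y => dist q y) hne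
    have hgap : 0 < dist q y1 - f := by
      have := hfar y1 hy1
      linarith
    obtain ⟨γ, hγc, hγ0, hγne, hγ⟩ := hpath (dist q y1 - f) hgap
    refine ⟨γ, hγc, hγ0, hγne, fun s hs => ?_⟩
    obtain ⟨h1, h2⟩ := hγ s hs
    rw [mem_ball] at h2
    refine ⟨h1, fun x hx hxq => ?_⟩
    have hxQ : x ∈ Q.erase t := (Finset.mem_insert.1 hx).resolve_left hxq
    have h3 := hy1' x hxQ
    have h4 : dist q x ≤ dist (γ s) q + dist (γ s) x := by
      have := dist_triangle q (γ s) x
      rwa [dist_comm q (γ s)] at this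
    have h5 : f < dist (γ s) x := by linarith
    refine ⟨fun h => ?_, fun f' hf' => ?_⟩
    · rw [h, dist_self] at h5
      linarith
    · have h6 := hf'.2 x0 hx0 y0 hy0 hxy0
      linarith

/-- The fork: two sets `T₁, T₂` and a set `H` of diameter less than `f`, such that no point of `H`
is within distance `f` of both points `q₁, q₂`. -/
private lemma fork {C T₁ T₂ H : Set E} {n : ℕ} (hn : 2 ≤ n) {f : ℝ} (hf : SepMax C n f)
    {q₁ q₂ : E}
    (hcov : ∀ x ∈ C, x ∈ T₁ ∨ x ∈ T₂ ∨ x ∈ H ∨ (f < dist q₁ x ∧ f < dist q₂ x))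
    (hT₁ : ∀ x ∈ T₁, ∀ y ∈ T₁, dist x y < f) (hT₂ : ∀ x ∈ T₂, ∀ y ∈ T₂, dist x y < f)
    (hH : ∀ x ∈ H, ∀ y ∈ H, dist x y < f)
    (h12 : ∀ x ∈ T₂, f < dist q₁ x) (h21 : ∀ x ∈ T₁, f < dist q₂ x)
    (hHH : ∀ x ∈ H, f < dist q₁ x ∨ f < dist q₂ x) (hq₁ : q₁ ∈ C) (hq₂ : q₂ ∈ C)
    (hp₁ : ∀ ε > 0, ∃ γ : ℝ → E, ContinuousOn γ (Icc 0 1) ∧ γ 0 = q₁ ∧
      (∃ t ∈ Icc (0 : ℝ) 1, γ t ≠ q₁) ∧ ∀ t ∈ Icc (0 : ℝ) 1, γ t ∈ C ∩ ball q₁ ε)
    (hp₂ : ∀ ε > 0, ∃ γ : ℝ → E, ContinuousOn γ (Icc 0 1) ∧ γ 0 = q₂ ∧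
      (∃ t ∈ Icc (0 : ℝ) 1, γ t ≠ q₂) ∧ ∀ t ∈ Icc (0 : ℝ) 1, γ t ∈ C ∩ ball q₂ ε) :
    Good C n := by
  obtain ⟨hf0, ⟨Q, hQC, hQc, hQs⟩, hmax⟩ := hf
  by_cases hA : ∀ x ∈ Q, x ∉ T₁ → f < dist q₁ x
  · exact place hn hf0 hQC hQc hQs hmax hT₁ hq₁ hA hp₁
  · by_cases hB : ∀ x ∈ Q, x ∉ T₂ → f < dist q₂ x
    · exact place hn hf0 hQC hQc hQs hmax hT₂ hq₂ hB hp₂
    · exfalso
      push Not at hA hB
      obtain ⟨x, hxQ, hxT, hx⟩ := hA
      obtain ⟨y, hyQ, hyT, hy⟩ := hB
      have hxH : x ∈ H := by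
        rcases hcov x (hQC hxQ) with h | h | h | h
        · exact absurd h hxT
        · exact absurd (h12 x h) (not_lt.2 hx)
        · exact h
        · exact absurd h.1 (not_lt.2 hx)
      have hyH : y ∈ H := by
        rcases hcov y (hQC hyQ) with h | h | h | h
        · exact absurd (h21 y h) (not_lt.2 hy)
        · exact absurd h hyT
        · exact h
        · exact absurd h.2 (not_lt.2 hy)
      by_cases hxy : x = y
      · subst hxy
        rcases hHH x hxH with h | h
        · exact absurd h (not_lt.2 hx)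
        · exact absurd h (not_lt.2 hy)
      · have h1 := hQs x hxQ y hyQ hxy
        have h2 := hH x hxH y hyH
        linarith

/-- A `G_δ` subset of a complete space is a Baire space. -/
private lemma baire_of_isGδ {X : Type*} [PseudoEMetricSpace X] [CompleteSpace X] {S : Set X}
    (hS : IsGδ S) : BaireSpace S := by
  have : CompleteSpace (closure S) := isClosed_closure.completeSpace_coe
  have h1 : IsGδ (Subtype.val ⁻¹' S : Set (closure S)) := hS.preimage continuous_subtype_val
  have h2 : Dense (Subtype.val ⁻¹' S : Set (closure S)) := by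
    rw [Subtype.dense_iff]
    intro x hx
    have : Subtype.val '' (Subtype.val ⁻¹' S : Set (closure S)) = S := by
      ext y
      constructor
      · rintro ⟨z, hz, rfl⟩
        exact hz
      · intro hy
        exact ⟨⟨y, subset_closure hy⟩, hy, rfl⟩
    rw [this]
    exact hx
  have h3 := h1.baireSpace_of_dense h2
  let e : (Subtype.val ⁻¹' S : Set (closure S)) ≃ₜ S :=
    { toFun := fun x => ⟨x.1.1, x.2⟩
      invFun := fun x => ⟨⟨x.1, subset_closure x.2⟩, x.2⟩
      left_inv := fun _ => rfl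
      right_inv := fun _ => rfl
      continuous_toFun := by fun_prop
      continuous_invFun := by fun_prop }
  exact e.baireSpace

private lemma isOpen_forall_mem {O : Set ((NonemptyCompacts E × Closeds E) × E)} (hO : IsOpen O) :
    IsOpen {p : NonemptyCompacts E × Closeds E | ∀ z ∈ p.1, (p, z) ∈ O} := by
  rw [isOpen_iff_mem_nhds]
  intro p hp
  obtain ⟨u, v, hu, hv, hpu, hpv, huv⟩ := generalized_tube_lemma (isCompact_singleton (x := p))
    p.1.isCompact hO (by
      rintro ⟨q, z⟩ ⟨hq, hz⟩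
      rw [mem_singleton_iff] at hq
      subst hq
      exact hp z hz)
  have h1 : IsOpen {q : NonemptyCompacts E × Closeds E | (q.1 : Set E) ⊆ v} :=
    (NonemptyCompacts.isOpen_subsets_of_isOpen hv).preimage continuous_fst
  filter_upwards [hu.mem_nhds (hpu rfl), h1.mem_nhds hpv] with q hq hqv
  intro z hz
  exact huv ⟨hq, hqv hz⟩

private lemma isOpen_notMem (f : (NonemptyCompacts E × Closeds E) × E → Closeds E)
    (hf : Continuous f) (g : (NonemptyCompacts E × Closeds E) × E → E) (hg : Continuous g) :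
    IsOpen {q | g q ∉ f q} := by
  have h1 : {q | g q ∉ f q} = {q | 0 < infEDist (g q) (f q : Set E)} := by
    ext q
    simp only [mem_ofPred_eq]
    rw [pos_iff_ne_zero, ne_eq, not_iff_not]
    exact mem_iff_infEDist_zero_of_closed (f q).isClosed
  rw [h1]
  exact isOpen_lt continuous_const (Closeds.continuous_infEDist.comp (hg.prodMk hf))

/-- the pairs `(C, closure of the complement of C)` for the nonempty compact regions `C` -/
private lemma isGδ_pairs : IsGδ {p : NonemptyCompacts E × Closeds E |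
    (p.1 : Set E) = closure (interior (p.1 : Set E)) ∧ (p.2 : Set E) = closure (p.1 : Set E)ᶜ} := by
  have hc1 : Continuous (fun q : (NonemptyCompacts E × Closeds E) × E => q.1.1.toCloseds) :=
    NonemptyCompacts.isometry_toCloseds.continuous.comp (continuous_fst.comp continuous_fst)
  have hc2 : Continuous (fun q : (NonemptyCompacts E × Closeds E) × E => q.1.2) :=
    continuous_snd.comp continuous_fst
  have hT2 : ∀ m : ℕ, IsOpen {p : NonemptyCompacts E × Closeds E | ∀ z ∈ p.1,
      (p, z) ∈ {q : (NonemptyCompacts E × Closeds E) × E |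
        ∃ y, dist y q.2 < 1 / ((m : ℝ) + 1) ∧ y ∉ q.1.2}} := by
    intro m
    refine isOpen_forall_mem ?_
    have : {q : (NonemptyCompacts E × Closeds E) × E |
        ∃ y, dist y q.2 < 1 / ((m : ℝ) + 1) ∧ y ∉ q.1.2} =
        ⋃ y, ({q | dist y q.2 < 1 / ((m : ℝ) + 1)} ∩ {q | y ∉ q.1.2}) := by
      ext q
      simp
    rw [this]
    refine isOpen_iUnion fun y => IsOpen.inter ?_ ?_
    · exact isOpen_lt (by fun_prop) continuous_const
    · exact isOpen_notMem _ hc2 _ continuous_const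
  have hT3 : ∀ m : ℕ, IsOpen {p : NonemptyCompacts E × Closeds E | ∀ z ∈ p.1,
      (p, z) ∈ {q : (NonemptyCompacts E × Closeds E) × E | q.2 ∉ q.1.2 ∨
        ∃ y, dist y q.2 < 1 / ((m : ℝ) + 1) ∧ y ∉ q.1.1.toCloseds}} := by
    intro m
    refine isOpen_forall_mem ?_
    have : {q : (NonemptyCompacts E × Closeds E) × E | q.2 ∉ q.1.2 ∨
        ∃ y, dist y q.2 < 1 / ((m : ℝ) + 1) ∧ y ∉ q.1.1.toCloseds} =
        {q | q.2 ∉ q.1.2} ∪
        ⋃ y, ({q | dist y q.2 < 1 / ((m : ℝ) + 1)} ∩ {q | y ∉ q.1.1.toCloseds}) := by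
      ext q
      simp
    rw [this]
    refine IsOpen.union (isOpen_notMem _ hc2 _ continuous_snd)
      (isOpen_iUnion fun y => IsOpen.inter ?_ ?_)
    · exact isOpen_lt (by fun_prop) continuous_const
    · exact isOpen_notMem _ hc1 _ continuous_const
  have hT1 : IsClosed {p : NonemptyCompacts E × Closeds E | ∀ z : E, z ∈ p.1 ∨ z ∈ p.2} := by
    have : {p : NonemptyCompacts E × Closeds E | ∀ z : E, z ∈ p.1 ∨ z ∈ p.2} =
        ⋂ z : E, ({p | infEDist z (p.1.toCloseds : Set E) = 0} ∪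
          {p | infEDist z (p.2 : Set E) = 0}) := by
      ext p
      simp only [mem_ofPred_eq, mem_iInter, mem_union]
      refine forall_congr' fun z => ?_
      rw [← mem_iff_infEDist_zero_of_closed p.1.toCloseds.isClosed,
        ← mem_iff_infEDist_zero_of_closed p.2.isClosed]
      rfl
    rw [this]
    refine isClosed_iInter fun z => IsClosed.union ?_ ?_
    · refine isClosed_eq (Closeds.continuous_infEDist.comp (continuous_const.prodMk ?_))
        continuous_const
      exact NonemptyCompacts.isometry_toCloseds.continuous.comp continuous_fst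
    · refine isClosed_eq (Closeds.continuous_infEDist.comp (continuous_const.prodMk ?_))
        continuous_const
      exact continuous_snd
  have hG := (hT1.isGδ.inter (IsGδ.iInter fun m => (hT2 m).isGδ)).inter
    (IsGδ.iInter fun m => (hT3 m).isGδ)
  convert! hG using 1
  ext p
  simp only [mem_ofPred_eq, mem_inter_iff, mem_iInter]
  have hp1 : IsClosed (p.1 : Set E) := p.1.isCompact.isClosed
  constructor
  · rintro ⟨h1, h2⟩
    have h3 : (p.1 : Set E) = closure (p.2 : Set E)ᶜ := by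
      rw [h2, ← interior_eq_compl_closure_compl]
      exact h1
    refine ⟨⟨?_, ?_⟩, ?_⟩
    · intro z
      by_cases hz : z ∈ p.1
      · exact Or.inl hz
      · right
        have : z ∈ (p.2 : Set E) := by
          rw [h2]
          exact subset_closure hz
        exact this
    · intro m z hz
      have hz' : z ∈ closure (p.2 : Set E)ᶜ := by
        rw [← h3]
        exact hz
      obtain ⟨y, hy, hyz⟩ := Metric.mem_closure_iff.1 hz' (1 / ((m : ℝ) + 1)) (by positivity)
      exact ⟨y, by rw [dist_comm]; exact hyz, hy⟩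
    · intro m z _
      by_cases hz2 : z ∈ p.2
      · right
        have hz' : z ∈ closure (p.1 : Set E)ᶜ := by
          rw [← h2]
          exact hz2
        obtain ⟨y, hy, hyz⟩ := Metric.mem_closure_iff.1 hz' (1 / ((m : ℝ) + 1)) (by positivity)
        exact ⟨y, by rw [dist_comm]; exact hyz, hy⟩
      · exact Or.inl hz2
  · rintro ⟨⟨h1, h2⟩, h3⟩
    have ha : (p.1 : Set E) = closure (p.2 : Set E)ᶜ := by
      apply Subset.antisymm
      · intro z hz
        rw [Metric.mem_closure_iff]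
        intro ε hε
        obtain ⟨m, hm⟩ := exists_nat_one_div_lt hε
        obtain ⟨y, hy1, hy2⟩ := h2 m z hz
        exact ⟨y, hy2, by rw [dist_comm]; exact hy1.trans hm⟩
      · refine closure_minimal ?_ hp1
        intro z hz
        exact (h1 z).resolve_right hz
    have hb : (p.2 : Set E) = closure (p.1 : Set E)ᶜ := by
      apply Subset.antisymm
      · intro z hz
        by_cases hz1 : z ∈ p.1
        · rw [Metric.mem_closure_iff]
          intro ε hε
          obtain ⟨m, hm⟩ := exists_nat_one_div_lt hε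
          obtain ⟨y, hy1, hy2⟩ := (h3 m z hz1).resolve_left (fun h => h hz)
          exact ⟨y, hy2, by rw [dist_comm]; exact hy1.trans hm⟩
        · exact subset_closure hz1
      · refine closure_minimal ?_ p.2.isClosed
        intro z hz
        exact (h1 z).resolve_left hz
    refine ⟨?_, hb⟩
    rw [interior_eq_compl_closure_compl, ← hb]
    exact ha

private lemma isClosed_connected :
    IsClosed {K : NonemptyCompacts E | IsConnected (K : Set E)} := by
  rw [← isOpen_compl_iff, isOpen_iff_mem_nhds]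
  intro K hK
  have hK' : ¬ IsPreconnected (K : Set E) := fun h => hK ⟨K.nonempty, h⟩
  rw [isPreconnected_iff_subset_of_disjoint_closed] at hK'
  push Not at hK'
  obtain ⟨u, v, hu, hv, huv, hdis, hnu, hnv⟩ := hK'
  have h1 : IsCompact ((K : Set E) ∩ u) := K.isCompact.inter_right hu
  have h2 : IsCompact ((K : Set E) ∩ v) := K.isCompact.inter_right hv
  have h3 : Disjoint ((K : Set E) ∩ u) ((K : Set E) ∩ v) := by
    rw [Set.disjoint_iff_inter_eq_empty, ← Set.inter_inter_distrib_left]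
    exact hdis
  obtain ⟨U, V, hU, hV, hKU, hKV, hUV⟩ := SeparatedNhds.of_isCompact_isCompact h1 h2 h3
  have ho1 := NonemptyCompacts.isOpen_subsets_of_isOpen (hU.union hV)
  have ho2 := NonemptyCompacts.isOpen_inter_nonempty_of_isOpen hU
  have ho3 := NonemptyCompacts.isOpen_inter_nonempty_of_isOpen hV
  have hm1 : (K : Set E) ⊆ U ∪ V := by
    intro z hz
    rcases huv hz with h | h
    · exact Or.inl (hKU ⟨hz, h⟩)
    · exact Or.inr (hKV ⟨hz, h⟩)
  have hm2 : ((K : Set E) ∩ U).Nonempty := by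
    obtain ⟨z, hz, hzv⟩ := not_subset.1 hnv
    exact ⟨z, hz, hKU ⟨hz, (huv hz).resolve_right hzv⟩⟩
  have hm3 : ((K : Set E) ∩ V).Nonempty := by
    obtain ⟨z, hz, hzu⟩ := not_subset.1 hnu
    exact ⟨z, hz, hKV ⟨hz, (huv hz).resolve_left hzu⟩⟩
  filter_upwards [ho1.mem_nhds hm1, ho2.mem_nhds hm2, ho3.mem_nhds hm3] with L hL1 hL2 hL3
  intro hL
  obtain ⟨z, -, hzU, hzV⟩ := hL.isPreconnected U V hU hV hL1 hL2 hL3
  exact Set.disjoint_left.1 hUV hzU hzV

end General

section Euclid

variable {d : ℕ}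

private lemma exists_orth (hd : 2 ≤ d) (v : Sp d) : ∃ w : Sp d, ‖w‖ = 1 ∧ inner ℝ v w = 0 := by
  have h1 : (Submodule.span ℝ {v})ᗮ ≠ ⊥ := by
    intro h
    have h2 := Submodule.finrank_add_finrank_orthogonal (Submodule.span ℝ {v})
    rw [h, finrank_bot, add_zero, finrank_euclideanSpace_fin] at h2
    have h3 : Module.finrank ℝ (Submodule.span ℝ {v}) ≤ 1 := by
      have := finrank_span_le_card (R := ℝ) ({v} : Set (Sp d))
      simpa using this
    omega
  obtain ⟨u, hu, hu0⟩ := Submodule.exists_mem_ne_zero_of_ne_bot h1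
  rw [Submodule.mem_orthogonal_singleton_iff_inner_right] at hu
  refine ⟨‖u‖⁻¹ • u, ?_, ?_⟩
  · rw [norm_smul, norm_inv, norm_norm, inv_mul_cancel₀ (norm_ne_zero_iff.2 hu0)]
  · rw [inner_smul_right, hu, mul_zero]

private lemma dist_pt {w : Sp d} (hw : ‖w‖ = 1) (a : Sp d) (s t : ℝ) :
    dist (a + s • w) (a + t • w) = |s - t| := by
  rw [dist_eq_norm, add_sub_add_left_eq_sub, ← sub_smul, norm_smul, hw, mul_one,
    Real.norm_eq_abs]

private lemma dist_pt0 {w : Sp d} (hw : ‖w‖ = 1) (a : Sp d) (s : ℝ) :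
    dist (a + s • w) a = |s| := by
  rw [dist_eq_norm, add_sub_cancel_left, norm_smul, hw, mul_one, Real.norm_eq_abs]

end Euclid

section General

variable {M : Type*} [MetricSpace M]

/-- Three balls in a row form a fork. -/
private lemma gadget {a c₁ c₂ e₁ e₂ q₁ q₂ : M} {l δ f : ℝ} (hl : 0 < l)
    (hδl : δ ≤ 3 / 500 * l) (hf1 : 51 / 50 * l < f) (hf2 : f < 59 / 50 * l) {C : Set M} {n : ℕ}
    (hn : 2 ≤ n) (hf : SepMax C n f)
    (hcov : ∀ x ∈ C, dist x c₁ ≤ l / 2 + δ ∨ dist x c₂ ≤ l / 2 + δ ∨ dist x a ≤ l / 4 + δ ∨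
      (6 / 5 * l - δ ≤ dist e₁ x ∧ 6 / 5 * l - δ ≤ dist e₂ x))
    (g1 : dist q₁ e₁ ≤ l / 80) (g2 : dist q₂ e₂ ≤ l / 80) (g3 : 19 / 10 * l ≤ dist q₁ c₂)
    (g4 : 19 / 10 * l ≤ dist q₂ c₁) (g5 : 12 / 5 * l ≤ dist q₁ q₂) (hq₁ : q₁ ∈ C) (hq₂ : q₂ ∈ C)
    (hp₁ : ∀ ε > 0, ∃ γ : ℝ → M, ContinuousOn γ (Icc 0 1) ∧ γ 0 = q₁ ∧
      (∃ t ∈ Icc (0 : ℝ) 1, γ t ≠ q₁) ∧ ∀ t ∈ Icc (0 : ℝ) 1, γ t ∈ C ∩ ball q₁ ε)
    (hp₂ : ∀ ε > 0, ∃ γ : ℝ → M, ContinuousOn γ (Icc 0 1) ∧ γ 0 = q₂ ∧
      (∃ t ∈ Icc (0 : ℝ) 1, γ t ≠ q₂) ∧ ∀ t ∈ Icc (0 : ℝ) 1, γ t ∈ C ∩ ball q₂ ε) :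
    Good C n := by
  have hpair : ∀ (c : M) (r : ℝ), 2 * r < f → ∀ x ∈ closedBall c r, ∀ y ∈ closedBall c r,
      dist x y < f := by
    intro c r hr x hx y hy
    rw [mem_closedBall] at hx hy
    have := dist_triangle_right x y c
    linarith
  refine fork (T₁ := closedBall c₁ (l / 2 + δ)) (T₂ := closedBall c₂ (l / 2 + δ))
    (H := closedBall a (l / 4 + δ)) (q₁ := q₁) (q₂ := q₂) hn hf ?_
    (hpair _ _ (by linarith)) (hpair _ _ (by linarith)) (hpair _ _ (by linarith)) ?_ ?_ ?_
    hq₁ hq₂ hp₁ hp₂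
  · intro x hx
    rcases hcov x hx with h | h | h | ⟨h1, h2⟩
    · exact Or.inl h
    · exact Or.inr (Or.inl h)
    · exact Or.inr (Or.inr (Or.inl h))
    · refine Or.inr (Or.inr (Or.inr ⟨?_, ?_⟩))
      · have := dist_triangle e₁ q₁ x
        rw [dist_comm e₁ q₁] at this
        linarith
      · have := dist_triangle e₂ q₂ x
        rw [dist_comm e₂ q₂] at this
        linarith
  · intro x hx
    rw [mem_closedBall] at hx
    have := dist_triangle q₁ x c₂
    linarith
  · intro x hx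
    rw [mem_closedBall] at hx
    have := dist_triangle q₂ x c₁
    linarith
  · intro x _
    by_contra hcon
    push Not at hcon
    have := dist_triangle_right q₁ q₂ x
    linarith [hcon.1, hcon.2]

end General

section Euclid

variable {d : ℕ}

/-- the scales -/
private noncomputable def ll (R : ℝ) (k : ℕ) : ℝ := R / 80 * (9 / 10) ^ k

private lemma ll_pos {R : ℝ} (hR : 0 < R) (k : ℕ) : 0 < ll R k := by
  unfold ll
  positivity

private lemma ll_zero (R : ℝ) : ll R 0 = R / 80 := by simp [ll]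

private lemma ll_succ (R : ℝ) (k : ℕ) : ll R (k + 1) = 9 / 10 * ll R k := by
  unfold ll
  rw [pow_succ]
  ring

private lemma ll_anti {R : ℝ} (hR : 0 < R) {j k : ℕ} (h : j ≤ k) : ll R k ≤ ll R j := by
  unfold ll
  exact mul_le_mul_of_nonneg_left (pow_le_pow_of_le_one (by norm_num) (by norm_num) h)
    (by positivity)

private lemma ll_lt {R : ℝ} (hR : 0 < R) {j k : ℕ} (h : j < k) :
    ll R k ≤ 9 / 10 * ll R j := by
  rw [← ll_succ]
  exact ll_anti hR h

/-- the centres -/
private noncomputable def aa (z v : Sp d) (R : ℝ) (k : ℕ) : Sp d := z + (-(40 * ll R k)) • v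

private def GG (z v w : Sp d) (R : ℝ) (k : ℕ) : Set (Sp d) :=
  closedBall (aa z v R k + (3 / 4 * ll R k) • w) (ll R k / 2) ∪
    (closedBall (aa z v R k + (-(3 / 4 * ll R k)) • w) (ll R k / 2) ∪
      closedBall (aa z v R k) (ll R k / 4))

private def KK (z v : Sp d) (R : ℝ) : Set (Sp d) :=
  ⋃ h ∈ Ioc (0 : ℝ) R, closedBall (z + (-h) • v) (h / 1000)

private def UU (C : Set (Sp d)) (z v w : Sp d) (R : ℝ) : Set (Sp d) :=
  C ∪ (KK z v R ∪ ⋃ k, GG z v w R k)

private lemma GG_sub {z v w : Sp d} (hw : ‖w‖ = 1) {R : ℝ} (hR : 0 < R) (k : ℕ) :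
    GG z v w R k ⊆ closedBall (aa z v R k) (5 / 4 * ll R k) := by
  have hl := ll_pos hR k
  intro x hx
  rw [mem_closedBall]
  rcases hx with hx | hx | hx
  · rw [mem_closedBall] at hx
    have := dist_triangle x (aa z v R k + (3 / 4 * ll R k) • w) (aa z v R k)
    rw [dist_pt0 hw, abs_of_nonneg (by positivity)] at this
    linarith
  · rw [mem_closedBall] at hx
    have := dist_triangle x (aa z v R k + (-(3 / 4 * ll R k)) • w) (aa z v R k)
    rw [dist_pt0 hw, abs_neg, abs_of_nonneg (by positivity)] at this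
    linarith
  · rw [mem_closedBall] at hx
    linarith

private lemma GG_closed (z v w : Sp d) (R : ℝ) (k : ℕ) : IsClosed (GG z v w R k) :=
  isClosed_closedBall.union (isClosed_closedBall.union isClosed_closedBall)

private lemma far {C : Set (Sp d)} {z v w w' : Sp d} (hv : ‖v‖ = 1) (hw : ‖w‖ = 1)
    (hw' : ‖w'‖ = 1) (hvw : inner ℝ v w' = 0) {R : ℝ} (hR : 0 < R) (hC : ∀ c ∈ C, R ≤ dist z c)
    (k : ℕ) {x : Sp d} (hx : x ∈ UU C z v w R) (hxk : x ∉ GG z v w R k) :
    6 / 5 * ll R k ≤ dist (aa z v R k + (5 / 4 * ll R k) • w') x := by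
  have hl := ll_pos hR k
  have hlR : ll R k ≤ R / 80 := by
    rw [← ll_zero]
    exact ll_anti hR (Nat.zero_le k)
  have hqa : dist (aa z v R k + (5 / 4 * ll R k) • w') (aa z v R k) = 5 / 4 * ll R k := by
    rw [dist_pt0 hw', abs_of_nonneg (by positivity)]
  rcases hx with hx | hx | hx
  · have h1 := hC x hx
    have h2 : dist (aa z v R k) z = 40 * ll R k := by
      unfold aa
      rw [dist_pt0 hv, abs_neg, abs_of_nonneg (by positivity)]
    have h3 := dist_triangle z (aa z v R k) x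
    rw [dist_comm z (aa z v R k), h2] at h3
    have h4 := dist_triangle (aa z v R k) (aa z v R k + (5 / 4 * ll R k) • w') x
    rw [dist_comm (aa z v R k) (aa z v R k + (5 / 4 * ll R k) • w'), hqa] at h4
    linarith
  · simp only [KK, mem_iUnion, exists_prop] at hx
    obtain ⟨h, ⟨h0, hhR⟩, hx⟩ := hx
    rw [mem_closedBall] at hx
    obtain ⟨u, hu⟩ : ∃ u, u = (aa z v R k + (5 / 4 * ll R k) • w') - (z + (-h) • v) := ⟨_, rfl⟩
    have hu' : u = (h - 40 * ll R k) • v + (5 / 4 * ll R k) • w' := by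
      rw [hu, aa, sub_smul, neg_smul, neg_smul]
      abel
    have hww : inner ℝ w' w' = (1 : ℝ) := by
      rw [real_inner_self_eq_norm_sq, hw']
      norm_num
    have hvv : inner ℝ v v = (1 : ℝ) := by
      rw [real_inner_self_eq_norm_sq, hv]
      norm_num
    have hwv : inner ℝ w' v = (0 : ℝ) := by rw [real_inner_comm]; exact hvw
    have n1 : 5 / 4 * ll R k ≤ ‖u‖ := by
      have h1 : inner ℝ w' u = 5 / 4 * ll R k := by
        rw [hu', inner_add_right, inner_smul_right, inner_smul_right, hww, hwv]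
        ring
      have h2 := real_inner_le_norm w' u
      rw [h1, hw', one_mul] at h2
      exact h2
    have n2 : h - 40 * ll R k ≤ ‖u‖ := by
      have h1 : inner ℝ v u = h - 40 * ll R k := by
        rw [hu', inner_add_right, inner_smul_right, inner_smul_right, hvv, hvw]
        ring
      have h2 := real_inner_le_norm v u
      rw [h1, hv, one_mul] at h2
      exact h2
    have h3 : ‖u‖ = dist (aa z v R k + (5 / 4 * ll R k) • w') (z + (-h) • v) := by
      rw [hu, dist_eq_norm]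
    have h4 := dist_triangle (aa z v R k + (5 / 4 * ll R k) • w') x (z + (-h) • v)
    rw [← h3] at h4
    rcases le_total h (50 * ll R k) with h5 | h5
    · linarith
    · linarith
  · simp only [mem_iUnion] at hx
    obtain ⟨j, hj⟩ := hx
    have hjk : j ≠ k := by
      rintro rfl
      exact hxk hj
    have hlj := ll_pos hR j
    have h1 := GG_sub (v := v) (z := z) hw hR j hj
    rw [mem_closedBall] at h1
    have h2 : dist (aa z v R k) (aa z v R j) = |40 * ll R j - 40 * ll R k| := by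
      unfold aa
      rw [dist_pt hv]
      congr 1
      ring
    have h3 : dist (aa z v R k) (aa z v R j) ≤ dist (aa z v R k)
        (aa z v R k + (5 / 4 * ll R k) • w') + dist (aa z v R k + (5 / 4 * ll R k) • w') x +
        dist x (aa z v R j) := dist_triangle4 _ _ _ _
    rw [dist_comm (aa z v R k) (aa z v R k + (5 / 4 * ll R k) • w'), hqa] at h3
    rcases lt_or_gt_of_ne hjk with h | h
    · have h4 := ll_lt hR h
      have h5 : 40 * ll R j - 40 * ll R k ≤ |40 * ll R j - 40 * ll R k| := le_abs_self _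
      rw [← h2] at h5
      linarith
    · have h4 := ll_lt hR h
      have h5 : -(40 * ll R j - 40 * ll R k) ≤ |40 * ll R j - 40 * ll R k| := neg_le_abs _
      rw [← h2] at h5
      linarith

private lemma cover {C : Set (Sp d)} {z v w : Sp d} (hv : ‖v‖ = 1) (hw : ‖w‖ = 1)
    (hvw : inner ℝ v w = 0) {R : ℝ} (hR : 0 < R) (hC : ∀ c ∈ C, R ≤ dist z c) (k : ℕ) :
    ∀ x ∈ closure (UU C z v w R), x ∈ GG z v w R k ∨
      (6 / 5 * ll R k ≤ dist (aa z v R k + (5 / 4 * ll R k) • w) x ∧
        6 / 5 * ll R k ≤ dist (aa z v R k + (-(5 / 4 * ll R k)) • w) x) := by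
  have hsub : UU C z v w R ⊆ GG z v w R k ∪
      {x | 6 / 5 * ll R k ≤ dist (aa z v R k + (5 / 4 * ll R k) • w) x ∧
        6 / 5 * ll R k ≤ dist (aa z v R k + (-(5 / 4 * ll R k)) • w) x} := by
    intro x hx
    by_cases hxk : x ∈ GG z v w R k
    · exact Or.inl hxk
    · right
      refine ⟨far hv hw hw hvw hR hC k hx hxk, ?_⟩
      have h1 := far (w' := -w) hv hw (by rw [norm_neg]; exact hw)
        (by rw [inner_neg_right, hvw, neg_zero]) hR hC k hx hxk
      rwa [smul_neg, ← neg_smul] at h1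
  have hcl : IsClosed (GG z v w R k ∪
      {x | 6 / 5 * ll R k ≤ dist (aa z v R k + (5 / 4 * ll R k) • w) x ∧
        6 / 5 * ll R k ≤ dist (aa z v R k + (-(5 / 4 * ll R k)) • w) x}) := by
    refine (GG_closed z v w R k).union ?_
    refine IsClosed.inter ?_ ?_
    · exact isClosed_le continuous_const (continuous_const.dist continuous_id)
    · exact isClosed_le continuous_const (continuous_const.dist continuous_id)
  intro x hx
  exact closure_minimal hsub hcl hx

private lemma UU_sub_ball {C : Set (Sp d)} {z v w : Sp d} (hv : ‖v‖ = 1) (hw : ‖w‖ = 1) {R : ℝ}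
    (hR : 0 < R) : UU C z v w R ⊆ C ∪ closedBall (z + (-R) • v) R := by
  intro x hx
  rcases hx with hx | hx | hx
  · exact Or.inl hx
  · right
    simp only [KK, mem_iUnion, exists_prop] at hx
    obtain ⟨h, ⟨h0, hhR⟩, hx⟩ := hx
    rw [mem_closedBall] at hx ⊢
    have h1 := dist_triangle x (z + (-h) • v) (z + (-R) • v)
    rw [dist_pt hv, abs_of_nonneg (by linarith)] at h1
    linarith
  · right
    simp only [mem_iUnion] at hx
    obtain ⟨k, hk⟩ := hx
    have hl := ll_pos hR k
    have hlR : ll R k ≤ R / 80 := by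
      rw [← ll_zero]
      exact ll_anti hR (Nat.zero_le k)
    have h1 := GG_sub (v := v) (z := z) hw hR k hk
    rw [mem_closedBall] at h1 ⊢
    have h2 := dist_triangle x (aa z v R k) (z + (-R) • v)
    have h3 : dist (aa z v R k) (z + (-R) • v) = R - 40 * ll R k := by
      unfold aa
      rw [dist_pt hv, abs_of_nonneg (by linarith)]
      ring
    rw [h3] at h2
    linarith

private lemma UU_half {C : Set (Sp d)} {z v w : Sp d} (hv : ‖v‖ = 1) (hw : ‖w‖ = 1) {R : ℝ}
    (hR : 0 < R) : UU C z v w R ⊆ C ∪ {x | inner ℝ v (x - z) ≤ 0} := by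
  have hvv : inner ℝ v v = (1 : ℝ) := by
    rw [real_inner_self_eq_norm_sq, hv]
    norm_num
  have key : ∀ (t r : ℝ) (x : Sp d), r ≤ t → dist x (z + (-t) • v) ≤ r →
      inner ℝ v (x - z) ≤ 0 := by
    intro t r x hrt hx
    have h1 : x - z = (x - (z + (-t) • v)) + (-t) • v := by abel
    have h2 := real_inner_le_norm v (x - (z + (-t) • v))
    rw [hv, one_mul, ← dist_eq_norm] at h2
    rw [h1, inner_add_right, inner_smul_right, hvv]
    linarith
  intro x hx
  rcases hx with hx | hx | hx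
  · exact Or.inl hx
  · right
    simp only [KK, mem_iUnion, exists_prop] at hx
    obtain ⟨h, ⟨h0, hhR⟩, hx⟩ := hx
    exact key h (h / 1000) x (by linarith) hx
  · right
    simp only [mem_iUnion] at hx
    obtain ⟨k, hk⟩ := hx
    have hl := ll_pos hR k
    exact key (40 * ll R k) (5 / 4 * ll R k) x (by linarith)
      (GG_sub (v := v) (z := z) hw hR k hk)

private lemma closedBall_sub_closure {A : Set (Sp d)} {c : Sp d} {r : ℝ} (hr : 0 < r)
    (h : closedBall c r ⊆ A) : closedBall c r ⊆ closure (interior A) := by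
  rw [← closure_ball c hr.ne']
  refine closure_mono ?_
  refine (isOpen_ball.subset_interior_iff).2 ?_
  exact ball_subset_closedBall.trans h

private lemma UU_region {C : Set (Sp d)} (hC : CompactRegion C) {z v w : Sp d} (hv : ‖v‖ = 1)
    (hw : ‖w‖ = 1) {R : ℝ} (hR : 0 < R) : CompactRegion (closure (UU C z v w R)) := by
  have hcomp : IsCompact (closure (UU C z v w R)) := by
    have h1 : IsCompact (C ∪ closedBall (z + (-R) • v) R) :=
      hC.1.union (isCompact_closedBall _ _)
    exact h1.of_isClosed_subset isClosed_closure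
      (closure_minimal (UU_sub_ball hv hw hR) h1.isClosed)
  refine ⟨hcomp, subset_antisymm ?_
    ((closure_mono interior_subset).trans hcomp.isClosed.closure_eq.subset)⟩
  refine closure_minimal ?_ isClosed_closure
  refine union_subset ?_ (union_subset ?_ ?_)
  · calc C = closure (interior C) := hC.2
      _ ⊆ closure (interior (closure (UU C z v w R))) :=
        closure_mono (interior_mono (subset_union_left.trans subset_closure))
  · refine iUnion₂_subset fun h hh => ?_
    refine closedBall_sub_closure (by have := hh.1; positivity) ?_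
    refine Subset.trans ?_ subset_closure
    exact (subset_iUnion₂ (s := fun (h : ℝ) (_ : h ∈ Ioc (0 : ℝ) R) =>
      closedBall (z + (-h) • v) (h / 1000)) h hh).trans
      (subset_union_left.trans subset_union_right)
  · refine iUnion_subset fun k => ?_
    have hl := ll_pos hR k
    have hG : GG z v w R k ⊆ closure (UU C z v w R) :=
      ((subset_iUnion (fun k => GG z v w R k) k).trans
        (subset_union_right.trans subset_union_right)).trans subset_closure
    refine union_subset ?_ (union_subset ?_ ?_)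
    · exact closedBall_sub_closure (by positivity) (subset_union_left.trans hG)
    · exact closedBall_sub_closure (by positivity)
        ((subset_union_left.trans subset_union_right).trans hG)
    · exact closedBall_sub_closure (by positivity)
        ((subset_union_right.trans subset_union_right).trans hG)

private lemma UU_connected {C : Set (Sp d)} (hC : IsConnected C) {z v w : Sp d}
    (hw : ‖w‖ = 1) {R : ℝ} (hR : 0 < R) (hb : z + (-R) • v ∈ C) :
    IsConnected (UU C z v w R) := by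
  obtain ⟨L, hL⟩ : ∃ L : Set (Sp d), L = (fun h : ℝ => z + (-h) • v) '' Ioc (0 : ℝ) R :=
    ⟨_, rfl⟩
  have hLc : IsPreconnected L := by
    rw [hL]
    refine isPreconnected_Ioc.image _ ?_
    fun_prop
  have hbL : z + (-R) • v ∈ L := by
    rw [hL]
    exact ⟨R, ⟨hR, le_rfl⟩, rfl⟩
  have hLU : L ⊆ UU C z v w R := by
    rw [hL]
    rintro _ ⟨h, hh, rfl⟩
    refine Or.inr (Or.inl ?_)
    simp only [KK, mem_iUnion, exists_prop]
    exact ⟨h, hh, mem_closedBall_self (by have := hh.1; positivity)⟩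
  refine ⟨⟨_, Or.inl hb⟩, isPreconnected_of_forall (z + (-R) • v) fun y hy => ?_⟩
  rcases hy with hy | hy | hy
  · exact ⟨C, subset_union_left, hb, hy, hC.isPreconnected⟩
  · simp only [KK, mem_iUnion, exists_prop] at hy
    obtain ⟨h, hh, hy⟩ := hy
    refine ⟨L ∪ closedBall (z + (-h) • v) (h / 1000), union_subset hLU ?_, Or.inl hbL, Or.inr hy,
      IsPreconnected.union (z + (-h) • v) ?_ ?_ hLc (convex_closedBall _ _).isPreconnected⟩
    · exact (subset_iUnion₂ (s := fun (h : ℝ) (_ : h ∈ Ioc (0 : ℝ) R) =>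
        closedBall (z + (-h) • v) (h / 1000)) h hh).trans
        (subset_union_left.trans subset_union_right)
    · rw [hL]
      exact ⟨h, hh, rfl⟩
    · exact mem_closedBall_self (by have := hh.1; positivity)
  · simp only [mem_iUnion] at hy
    obtain ⟨k, hk⟩ := hy
    have hl := ll_pos hR k
    have hlR : ll R k ≤ R / 80 := by
      rw [← ll_zero]
      exact ll_anti hR (Nat.zero_le k)
    have haL : aa z v R k ∈ L := by
      rw [hL]
      exact ⟨40 * ll R k, ⟨by positivity, by linarith⟩, rfl⟩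
    have hG : GG z v w R k ⊆ UU C z v w R :=
      (subset_iUnion (fun k => GG z v w R k) k).trans
        (subset_union_right.trans subset_union_right)
    have c1 : IsPreconnected (L ∪ closedBall (aa z v R k) (ll R k / 4)) :=
      IsPreconnected.union (aa z v R k) haL (mem_closedBall_self (by positivity)) hLc
        (convex_closedBall _ _).isPreconnected
    have c2 : IsPreconnected ((L ∪ closedBall (aa z v R k) (ll R k / 4)) ∪
        closedBall (aa z v R k + (3 / 4 * ll R k) • w) (ll R k / 2)) := by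
      refine IsPreconnected.union (aa z v R k + (1 / 4 * ll R k) • w) (Or.inr ?_) ?_ c1
        (convex_closedBall _ _).isPreconnected
      · rw [mem_closedBall, dist_pt0 hw, abs_of_nonneg (by positivity)]
        linarith
      · rw [mem_closedBall, dist_pt hw, abs_of_nonpos (by linarith)]
        linarith
    have c3 : IsPreconnected (((L ∪ closedBall (aa z v R k) (ll R k / 4)) ∪
        closedBall (aa z v R k + (3 / 4 * ll R k) • w) (ll R k / 2)) ∪
        closedBall (aa z v R k + (-(3 / 4 * ll R k)) • w) (ll R k / 2)) := by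
      refine IsPreconnected.union (aa z v R k + (-(1 / 4 * ll R k)) • w) (Or.inl (Or.inr ?_)) ?_ c2
        (convex_closedBall _ _).isPreconnected
      · rw [mem_closedBall, dist_pt0 hw, abs_neg, abs_of_nonneg (by positivity)]
        linarith
      · rw [mem_closedBall, dist_pt hw, abs_of_nonneg (by linarith)]
        linarith
    refine ⟨_, ?_, Or.inl (Or.inl (Or.inl hbL)), ?_, c3⟩
    · refine union_subset (union_subset (union_subset hLU ?_) ?_) ?_
      · exact (subset_union_right.trans subset_union_right).trans hG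
      · exact subset_union_left.trans hG
      · exact (subset_union_left.trans subset_union_right).trans hG
    · rcases hk with hk | hk | hk
      · exact Or.inl (Or.inr hk)
      · exact Or.inr hk
      · exact Or.inl (Or.inl (Or.inr hk))

private lemma infinite_of_ball {w : Sp d} (hw : ‖w‖ = 1) {A : Set (Sp d)} {c : Sp d} {r : ℝ}
    (hr : 0 < r) (h : ball c r ⊆ A) : A.Infinite := by
  have : Nontrivial (Sp d) := by
    refine ⟨⟨w, 0, ?_⟩⟩
    intro h
    rw [h, norm_zero] at hw
    exact zero_ne_one hw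
  exact (infinite_of_mem_nhds c (ball_mem_nhds c hr)).mono h

private lemma exists_scale {R : ℝ} (hR : 0 < R) {f : ℝ} (hf : 0 < f)
    (hf0 : f < 117 / 100 * ll R 0) :
    ∃ k, 103 / 100 * ll R k < f ∧ f < 117 / 100 * ll R k := by
  classical
  have hex : ∃ k, 103 / 100 * ll R k < f := by
    obtain ⟨k, hk⟩ := exists_pow_lt_of_lt_one
      (show 0 < f / (103 / 100 * (R / 80)) by positivity) (show (9 / 10 : ℝ) < 1 by norm_num)
    refine ⟨k, ?_⟩
    rw [lt_div_iff₀ (by positivity)] at hk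
    unfold ll
    linarith
  refine ⟨Nat.find hex, Nat.find_spec hex, ?_⟩
  rcases Nat.eq_zero_or_pos (Nat.find hex) with h | h
  · rw [h]
    exact hf0
  · obtain ⟨k, hk⟩ : ∃ k, Nat.find hex = k + 1 := ⟨Nat.find hex - 1, by omega⟩
    have h1 := Nat.find_min hex (show k < Nat.find hex by omega)
    rw [not_lt] at h1
    rw [hk, ll_succ]
    have h2 := ll_pos hR k
    linarith

end Euclid

section Chart

variable {d : ℕ} {M : Type*} [MetricSpace M]

/-- a chart at `x` -/
private structure Cht (φ : Sp d → M) (x : M) (r s : ℝ) : Prop where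
  r_pos : 0 < r
  s_pos : 0 < s
  zero : φ 0 = x
  lo : ∀ y ∈ ball (0 : Sp d) r, ∀ z ∈ ball (0 : Sp d) r, 399 / 400 * dist y z ≤ dist (φ y) (φ z)
  hi : ∀ y ∈ ball (0 : Sp d) r, ∀ z ∈ ball (0 : Sp d) r, dist (φ y) (φ z) ≤ 401 / 400 * dist y z
  surj : ball x s ⊆ φ '' ball 0 r

variable {φ : Sp d → M} {x : M} {r s : ℝ}

private lemma Cht.cont (h : Cht φ x r s) : ContinuousOn φ (ball 0 r) := by
  rw [Metric.continuousOn_iff]
  intro y hy ε hε
  refine ⟨ε / 2, by positivity, fun z hz hzy => ?_⟩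
  have h1 := h.hi z hz y hy
  have h2 : (0 : ℝ) ≤ dist z y := dist_nonneg
  linarith

private lemma Cht.inj (h : Cht φ x r s) : InjOn φ (ball 0 r) := by
  intro y hy z hz hyz
  have h1 := h.lo y hy z hz
  rw [hyz, dist_self] at h1
  have h2 : dist y z ≤ 0 := by linarith
  exact dist_le_zero.1 h2

/-- the points of `M` near `φ y` are the images of points near `y` -/
private lemma Cht.lift (h : Cht φ x r s) {y : Sp d} (hy : y ∈ ball (0 : Sp d) r)
    (hys : dist (φ y) x ≤ s / 2) {t : ℝ} (ht : t ≤ s / 2) {m : M} (hm : dist m (φ y) < t) :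
    ∃ z ∈ ball (0 : Sp d) r, φ z = m ∧ dist z y < 400 / 399 * t := by
  have h1 : m ∈ ball x s := by
    rw [mem_ball]
    have := dist_triangle m (φ y) x
    linarith
  obtain ⟨z, hz, rfl⟩ := h.surj h1
  refine ⟨z, hz, rfl, ?_⟩
  have := h.lo z hz y hy
  linarith

private lemma Cht.isOpen_image (h : Cht φ x r s) {U : Set (Sp d)} (hU : IsOpen U)
    (hUr : U ⊆ ball 0 r) (hUs : ∀ y ∈ U, dist (φ y) x ≤ s / 2) : IsOpen (φ '' U) := by
  rw [Metric.isOpen_iff]
  rintro _ ⟨y, hy, rfl⟩
  obtain ⟨t, ht, hball⟩ := Metric.isOpen_iff.1 hU y hy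
  have hs := h.s_pos
  refine ⟨min (t / 2) (s / 2), by positivity, fun m hm => ?_⟩
  rw [mem_ball] at hm
  obtain ⟨z, hz, hzm, hzy⟩ := h.lift (hUr hy) (hUs y hy) (min_le_right _ _) hm
  refine ⟨z, hball ?_, hzm⟩
  rw [mem_ball]
  have := min_le_left (t / 2) (s / 2)
  linarith

private lemma Cht.near (h : Cht φ x r s) {ρ : ℝ} (hρr : ρ ≤ r) {y : Sp d}
    (hy : y ∈ ball (0 : Sp d) ρ) : dist (φ y) x ≤ 401 / 400 * ρ := by
  rw [mem_ball] at hy
  have h1 := h.hi y (mem_ball.2 (hy.trans_le hρr)) 0 (mem_ball_self h.r_pos)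
  rw [h.zero] at h1
  linarith

/-- a path near a point of a chart -/
private lemma Cht.path (h : Cht φ x r s) {w : Sp d} (hw : ‖w‖ = 1) {C : Set M} {q : Sp d}
    (hq : q ∈ ball (0 : Sp d) r) {η : ℝ} (hη : 0 < η) (hball : ball (φ q) η ⊆ C) :
    ∀ ε > 0, ∃ γ : ℝ → M, ContinuousOn γ (Icc 0 1) ∧ γ 0 = φ q ∧
      (∃ t ∈ Icc (0 : ℝ) 1, γ t ≠ φ q) ∧ ∀ t ∈ Icc (0 : ℝ) 1, γ t ∈ C ∩ ball (φ q) ε := by
  intro ε hε
  have hq' := hq
  rw [mem_ball, dist_zero_right] at hq'
  obtain ⟨a, ha, haη, haε, har⟩ : ∃ a > 0, 2 * a < η ∧ 2 * a < ε ∧ ‖q‖ + a < r := by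
    have h0 : 0 < min (min η ε) (r - ‖q‖) := lt_min (lt_min hη hε) (by linarith)
    refine ⟨min (min η ε) (r - ‖q‖) / 4, by positivity, ?_, ?_, ?_⟩
    · have := (min_le_left (min η ε) (r - ‖q‖)).trans (min_le_left η ε)
      linarith
    · have := (min_le_left (min η ε) (r - ‖q‖)).trans (min_le_right η ε)
      linarith
    · have := min_le_right (min η ε) (r - ‖q‖)
      linarith
  have hdist : ∀ t ∈ Icc (0 : ℝ) 1, dist (q + (t * a) • w) q ≤ a := by
    intro t ht
    rw [dist_pt0 hw, abs_of_nonneg (mul_nonneg ht.1 ha.le)]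
    have := mul_le_mul_of_nonneg_right ht.2 ha.le
    linarith
  have hmem : ∀ t ∈ Icc (0 : ℝ) 1, q + (t * a) • w ∈ ball (0 : Sp d) r := by
    intro t ht
    rw [mem_ball, dist_zero_right]
    have h1 := hdist t ht
    rw [dist_eq_norm] at h1
    have h2 : ‖q + (t * a) • w‖ ≤ ‖q + (t * a) • w - q‖ + ‖q‖ := by
      have := norm_add_le (q + (t * a) • w - q) q
      rwa [sub_add_cancel] at this
    linarith
  have hd : ∀ t ∈ Icc (0 : ℝ) 1, dist (φ (q + (t * a) • w)) (φ q) < 2 * a := by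
    intro t ht
    have h1 := h.hi _ (hmem t ht) q hq
    have h2 := hdist t ht
    linarith
  refine ⟨fun t => φ (q + (t * a) • w), ?_, by simp, ⟨1, ⟨zero_le_one, le_rfl⟩, ?_⟩,
    fun t ht => ⟨hball ?_, ?_⟩⟩
  · refine h.cont.comp (by fun_prop) hmem
  · intro hcon
    have h1 : φ (q + (1 * a) • w) = φ q := hcon
    have h2 := h.inj (hmem 1 ⟨zero_le_one, le_rfl⟩) hq h1
    have h3 := dist_pt0 hw q (1 * a)
    rw [h2, dist_self, one_mul, abs_of_pos ha] at h3
    linarith
  · rw [mem_ball]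
    linarith [hd t ht]
  · rw [mem_ball]
    linarith [hd t ht]

private lemma Cht.infinite (h : Cht φ x r s) {w : Sp d} (hw : ‖w‖ = 1) {C : Set M} {q : Sp d}
    (hq : q ∈ ball (0 : Sp d) r) {η : ℝ} (hη : 0 < η) (hball : ball (φ q) η ⊆ C) :
    C.Infinite := by
  have hO : IsOpen (ball (0 : Sp d) r ∩ ball q (η / 2)) := isOpen_ball.inter isOpen_ball
  have hne : (ball (0 : Sp d) r ∩ ball q (η / 2)) ∈ nhds q :=
    hO.mem_nhds ⟨hq, mem_ball_self (by positivity)⟩
  have : Nontrivial (Sp d) := by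
    refine ⟨⟨w, 0, ?_⟩⟩
    intro h
    rw [h, norm_zero] at hw
    exact zero_ne_one hw
  have hinf : (ball (0 : Sp d) r ∩ ball q (η / 2)).Infinite := infinite_of_mem_nhds q hne
  refine (hinf.image (f := φ) (h.inj.mono inter_subset_left)).mono ?_
  rintro _ ⟨y, ⟨hy, hyq⟩, rfl⟩
  refine hball ?_
  rw [mem_ball] at hyq ⊢
  have := h.hi y hy q hq
  have h2 : (0 : ℝ) ≤ dist y q := dist_nonneg
  linarith

private lemma UU_single {z v w : Sp d} {R : ℝ} (hR : 0 < R) :
    UU {z + (-R) • v} z v w R = UU ∅ z v w R := by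
  have h1 : z + (-R) • v ∈ KK z v R := by
    simp only [KK, mem_iUnion, exists_prop]
    exact ⟨R, ⟨hR, le_rfl⟩, mem_closedBall_self (by positivity)⟩
  unfold UU
  rw [empty_union]
  refine subset_antisymm (union_subset ?_ Subset.rfl) subset_union_right
  rw [singleton_subset_iff]
  exact Or.inl h1

private lemma UU_mono {C D : Set (Sp d)} (h : C ⊆ D) (z v w : Sp d) (R : ℝ) :
    UU C z v w R ⊆ UU D z v w R := union_subset_union_left _ h

/-- The enlarged region. -/
private lemma main (hd : 2 ≤ d) {C : Set M} (hC : CompactRegion C) (hx : x ∈ frontier C)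
    (h : Cht φ x r s) {ε : ℝ} (hε : 0 < ε) :
    ∃ C' : Set M, C ⊆ C' ∧ C' ⊆ C ∪ closedBall x ε ∧
      (∀ y, y ∉ C → ∃ y', y' ∉ C' ∧ dist y y' ≤ ε) ∧ CompactRegion C' ∧
      (IsConnected C → IsConnected C') ∧
      ∃ n₀ : ℕ, ∀ n ≥ n₀, ∃ δ > 0, ∀ C'' : Set M, CompactRegion C'' → Near δ C' C'' →
        Good C'' n := by
  have hxC : x ∈ C := hC.1.isClosed.frontier_subset hx
  have hr := h.r_pos
  have hs := h.s_pos
  obtain ⟨ρ, hρ, hρr, hρs, hρε⟩ : ∃ ρ > 0, ρ ≤ r / 4 ∧ ρ ≤ s / 4 ∧ ρ ≤ ε / 4 := by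
    refine ⟨min (min (r / 4) (s / 4)) (ε / 4), by positivity, ?_, ?_, min_le_right _ _⟩
    · exact (min_le_left _ _).trans (min_le_left _ _)
    · exact (min_le_left _ _).trans (min_le_right _ _)
  have hnear : ∀ y ∈ ball (0 : Sp d) ρ, dist (φ y) x ≤ s / 2 ∧ dist (φ y) x ≤ ε / 2 := by
    intro y hy
    have h1 := h.near (show ρ ≤ r by linarith) hy
    constructor <;> linarith
  have hsub : ball (0 : Sp d) ρ ⊆ ball 0 r := ball_subset_ball (by linarith)
  -- a point outside
  obtain ⟨y0, hy0r, hy0C, hy0⟩ : ∃ y0 ∈ ball (0 : Sp d) r, φ y0 ∉ C ∧ ‖y0‖ < ρ / 4 := by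
    have h1 : x ∈ closure Cᶜ := by
      rw [frontier_eq_closure_inter_closure] at hx
      exact hx.2
    obtain ⟨m, hm, hmx⟩ := Metric.mem_closure_iff.1 h1 (min (ρ / 8) (s / 2)) (by positivity)
    obtain ⟨z, hz, hzm, hzy⟩ := h.lift (y := 0) (mem_ball_self hr)
      (by rw [h.zero, dist_self]; positivity) (min_le_right (ρ / 8) (s / 2))
      (m := m) (by rw [h.zero, dist_comm]; exact hmx)
    refine ⟨z, hz, by rw [hzm]; exact hm, ?_⟩
    rw [dist_zero_right] at hzy
    have := min_le_left (ρ / 8) (s / 2)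
    linarith
  obtain ⟨D, hD⟩ : ∃ D : Set (Sp d), D = ball 0 r ∩ φ ⁻¹' C := ⟨_, rfl⟩
  have hD1 : IsCompact (closedBall (0 : Sp d) (r / 2) ∩ φ ⁻¹' C) := by
    refine (isCompact_closedBall (0 : Sp d) (r / 2)).of_isClosed_subset ?_ inter_subset_left
    exact (h.cont.mono (closedBall_subset_ball (by linarith))).preimage_isClosed_of_isClosed
      isClosed_closedBall hC.1.isClosed
  have h0D1 : (0 : Sp d) ∈ closedBall (0 : Sp d) (r / 2) ∩ φ ⁻¹' C :=
    ⟨mem_closedBall_self (by positivity), by rw [mem_preimage, h.zero]; exact hxC⟩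
  obtain ⟨b, hbD1, hbmin⟩ := hD1.exists_isMinOn ⟨0, h0D1⟩
    (f := fun y : Sp d => dist y0 y) (by fun_prop)
  have hbC : φ b ∈ C := hbD1.2
  obtain ⟨R, hRdef⟩ : ∃ R, R = dist y0 b := ⟨_, rfl⟩
  have hR : 0 < R := by
    rw [hRdef]
    refine dist_pos.2 ?_
    rintro rfl
    exact hy0C hbC
  have hRy : R ≤ ‖y0‖ := by
    have h1 : dist y0 b ≤ dist y0 0 := hbmin h0D1
    rwa [dist_zero_right, ← hRdef] at h1
  have hCz : ∀ c ∈ D, R ≤ dist y0 c := by
    intro c hc
    rw [hD] at hc
    by_cases hc1 : c ∈ closedBall (0 : Sp d) (r / 2)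
    · rw [hRdef]
      exact hbmin ⟨hc1, hc.2⟩
    · rw [mem_closedBall, not_le] at hc1
      have h1 := dist_triangle c y0 0
      rw [dist_zero_right y0, dist_comm c y0] at h1
      linarith
  have hbr : b ∈ ball (0 : Sp d) r := closedBall_subset_ball (by linarith) hbD1.1
  obtain ⟨v, hvdef⟩ : ∃ v : Sp d, v = R⁻¹ • (y0 - b) := ⟨_, rfl⟩
  have hv : ‖v‖ = 1 := by
    rw [hvdef, norm_smul, norm_inv, Real.norm_eq_abs, abs_of_pos hR, ← dist_eq_norm, ← hRdef,
      inv_mul_cancel₀ hR.ne']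
  have hb : y0 + (-R) • v = b := by
    rw [hvdef, smul_smul, neg_mul, mul_inv_cancel₀ hR.ne', neg_one_smul]
    abel
  obtain ⟨w, hw, hvw⟩ := exists_orth hd v
  obtain ⟨K, hK⟩ : ∃ K : Set (Sp d), K = closure (UU {b} y0 v w R) := ⟨_, rfl⟩
  have hKe : K = closure (UU ∅ y0 v w R) := by rw [hK, ← hb, UU_single hR]
  have hKreg : CompactRegion K := by
    rw [hKe]
    exact UU_region ⟨isCompact_empty, by simp⟩ hv hw hR
  have hUK : UU ∅ y0 v w R ⊆ K := by
    rw [hKe]
    exact subset_closure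
  have hKb : K ⊆ closedBall b R := by
    rw [hKe, ← hb]
    refine closure_minimal ?_ isClosed_closedBall
    exact (UU_sub_ball hv hw hR).trans (union_subset (empty_subset _) Subset.rfl)
  have hb0 : dist b 0 ≤ 2 * ‖y0‖ := by
    have := dist_triangle b y0 0
    rw [dist_comm b y0, ← hRdef, dist_zero_right y0] at this
    linarith
  have hKρ : K ⊆ ball (0 : Sp d) ρ := by
    intro y hy
    have h1 := hKb hy
    rw [mem_closedBall] at h1
    rw [mem_ball]
    have := dist_triangle y b 0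
    linarith
  have hKr : K ⊆ ball (0 : Sp d) r := hKρ.trans hsub
  have hDK : D ∪ K ⊆ closure (UU D y0 v w R) := by
    refine union_subset (subset_union_left.trans subset_closure) ?_
    rw [hKe]
    exact closure_mono (UU_mono (empty_subset _) _ _ _ _)
  obtain ⟨C', hC'⟩ : ∃ C' : Set M, C' = C ∪ φ '' K := ⟨_, rfl⟩
  have hCC' : C ⊆ C' := by
    rw [hC']
    exact subset_union_left
  have hKC' : φ '' K ⊆ C' := by
    rw [hC']
    exact subset_union_right
  have hKim : IsCompact (φ '' K) := hKreg.1.image_of_continuousOn (h.cont.mono hKr)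
  have hcomp : IsCompact C' := by
    rw [hC']
    exact hC.1.union hKim
  have hreg : CompactRegion C' := by
    refine ⟨hcomp, subset_antisymm ?_
      ((closure_mono interior_subset).trans hcomp.isClosed.closure_eq.subset)⟩
    have h1 : C ⊆ closure (interior C') := by
      calc C = closure (interior C) := hC.2
        _ ⊆ closure (interior C') := closure_mono (interior_mono hCC')
    have h2 : φ '' K ⊆ closure (interior C') := by
      have h3 : IsOpen (φ '' interior K) :=
        h.isOpen_image isOpen_interior (interior_subset.trans hKr)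
          (fun y hy => (hnear y (hKρ (interior_subset hy))).1)
      have h4 : φ '' interior K ⊆ interior C' :=
        interior_maximal ((image_mono interior_subset).trans hKC') h3
      rintro _ ⟨y, hy, rfl⟩
      have h5 : y ∈ closure (interior K) := by
        rw [← hKreg.2]
        exact hy
      have h6 : φ y ∈ closure (φ '' interior K) :=
        ((h.cont.mono hKr y hy).mono interior_subset).mem_closure_image h5
      exact closure_mono h4 h6
    calc C' ⊆ C ∪ φ '' K := hC'.subset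
      _ ⊆ closure (interior C') := union_subset h1 h2
  have hCb : ∀ y ∈ C', y ∈ C ∨ ∃ z ∈ K, φ z = y := by
    intro y hy
    rw [hC'] at hy
    exact hy
  refine ⟨C', hCC', ?_, ?_, hreg, ?_, ?_⟩
  · intro y hy
    rcases hCb y hy with h1 | ⟨z, hz, rfl⟩
    · exact Or.inl h1
    · right
      rw [mem_closedBall]
      have := (hnear z (hKρ hz)).2
      linarith
  · intro y hy
    by_cases hyC' : y ∈ C'
    · obtain ⟨z, hz, rfl⟩ := (hCb y hyC').resolve_left hy
      have huρ : y0 + (R / 2) • v ∈ ball (0 : Sp d) ρ := by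
        rw [mem_ball]
        have h1 := dist_triangle (y0 + (R / 2) • v) y0 0
        rw [dist_pt0 hv, abs_of_pos (by positivity), dist_zero_right y0] at h1
        linarith
      refine ⟨φ (y0 + (R / 2) • v), ?_, ?_⟩
      · intro hcon
        rcases hCb _ hcon with h1 | ⟨z', hz', hz'e⟩
        · have h2 : y0 + (R / 2) • v ∈ D := by
            rw [hD]
            exact ⟨hsub huρ, h1⟩
          have h3 := hCz _ h2
          rw [dist_comm, dist_pt0 hv, abs_of_pos (by positivity)] at h3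
          linarith
        · have h2 : z' = y0 + (R / 2) • v := h.inj (hKr hz') (hsub huρ) hz'e
          have h1 : K ⊆ {x | inner ℝ v (x - y0) ≤ 0} := by
            rw [hKe]
            refine closure_minimal ((UU_half hv hw hR).trans
              (union_subset (empty_subset _) Subset.rfl)) ?_
            exact isClosed_le (by fun_prop) continuous_const
          have h3 : inner ℝ v (z' - y0) ≤ 0 := h1 hz'
          rw [h2, add_sub_cancel_left, inner_smul_right, real_inner_self_eq_norm_sq, hv] at h3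
          linarith
      · have h1 := (hnear z (hKρ hz)).2
        have h2 := (hnear _ huρ).2
        have h3 := dist_triangle_right (φ z) (φ (y0 + (R / 2) • v)) x
        linarith
    · exact ⟨y, hyC', by rw [dist_self]; exact hε.le⟩
  · intro hconn
    have h1 : IsConnected K := by
      rw [hK]
      exact (UU_connected (C := {b}) isConnected_singleton hw hR
        (by rw [hb]; exact mem_singleton b)).closure
    have h2 : IsConnected (φ '' K) := h1.image φ (h.cont.mono hKr)
    have hbK : b ∈ K := by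
      rw [hK]
      exact subset_closure (Or.inl (mem_singleton b))
    rw [hC']
    exact ⟨⟨x, Or.inl hxC⟩, IsPreconnected.union (φ b) hbC (mem_image_of_mem φ hbK)
      hconn.isPreconnected h2.isPreconnected⟩
  · obtain ⟨N, hN⟩ := sepMax_small hreg.1
      (show 0 < 117 / 100 * ll R 0 by have := ll_pos hR 0; positivity)
    refine ⟨max N 2, fun n hn => ?_⟩
    have hn2 : 2 ≤ n := (le_max_right _ _).trans hn
    have hball : ∀ k : ℕ, ∀ t c : ℝ, |t| ≤ 5 / 4 * ll R k → |t - c| ≤ 49 / 100 * ll R k →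
        closedBall (aa y0 v R k + c • w) (ll R k / 2) ⊆ GG y0 v w R k →
        aa y0 v R k + t • w ∈ ball (0 : Sp d) ρ ∧
          ball (φ (aa y0 v R k + t • w)) (ll R k / 200) ⊆ C' := by
      intro k t c ht htc hcG
      have hl := ll_pos hR k
      have hlR : ll R k ≤ R / 80 := by
        rw [← ll_zero]
        exact ll_anti hR (Nat.zero_le k)
      have h1 : aa y0 v R k + t • w ∈ ball (0 : Sp d) ρ := by
        rw [mem_ball]
        have e1 := dist_triangle4 (aa y0 v R k + t • w) (aa y0 v R k) y0 0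
        have e2 : dist (aa y0 v R k) y0 = 40 * ll R k := by
          unfold aa
          rw [dist_pt0 hv, abs_neg, abs_of_nonneg (by positivity)]
        rw [dist_pt0 hw, e2, dist_zero_right y0] at e1
        linarith
      refine ⟨h1, fun m hm => ?_⟩
      rw [mem_ball] at hm
      obtain ⟨z, hz, hzm, hzy⟩ := h.lift (hsub h1) (hnear _ h1).1
        (show ll R k / 200 ≤ s / 2 by linarith) hm
      rw [← hzm]
      refine hKC' (mem_image_of_mem φ (hUK (Or.inr (Or.inr (mem_iUnion.2 ⟨k, hcG ?_⟩)))))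
      rw [mem_closedBall]
      have e3 := dist_triangle z (aa y0 v R k + t • w) (aa y0 v R k + c • w)
      rw [dist_pt hw] at e3
      linarith
    have hq1 : ∀ k, aa y0 v R k + (31 / 25 * ll R k) • w ∈ ball (0 : Sp d) ρ ∧
        ball (φ (aa y0 v R k + (31 / 25 * ll R k) • w)) (ll R k / 200) ⊆ C' := by
      intro k
      have hl := ll_pos hR k
      refine hball k (31 / 25 * ll R k) (3 / 4 * ll R k) ?_ ?_ subset_union_left
      · rw [abs_of_nonneg (by positivity)]
        linarith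
      · rw [abs_of_nonneg (by linarith)]
        linarith
    have hq2 : ∀ k, aa y0 v R k + (-(31 / 25 * ll R k)) • w ∈ ball (0 : Sp d) ρ ∧
        ball (φ (aa y0 v R k + (-(31 / 25 * ll R k)) • w)) (ll R k / 200) ⊆ C' := by
      intro k
      have hl := ll_pos hR k
      refine hball k (-(31 / 25 * ll R k)) (-(3 / 4 * ll R k)) ?_ ?_
        (subset_union_left.trans subset_union_right)
      · rw [abs_neg, abs_of_nonneg (by positivity)]
        linarith
      · rw [abs_of_nonpos (by linarith)]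
        linarith
    have hinf : C'.Infinite :=
      h.infinite hw (hsub (hq1 0).1) (by have := ll_pos hR 0; positivity) (hq1 0).2
    obtain ⟨f, hf⟩ := exists_sepMax hreg.1 hinf hn2
    obtain ⟨k, hk1, hk2⟩ := exists_scale hR hf.1 (hN n ((le_max_left _ _).trans hn) f hf)
    have hq1 := hq1 k
    have hq2 := hq2 k
    have hlR : ll R k ≤ R / 80 := by
      rw [← ll_zero]
      exact ll_anti hR (Nat.zero_le k)
    have hpt : ∀ t : ℝ, |t| ≤ 5 / 4 * ll R k → aa y0 v R k + t • w ∈ ball (0 : Sp d) ρ := by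
      intro t ht
      rw [mem_ball]
      have hl := ll_pos hR k
      have e1 := dist_triangle4 (aa y0 v R k + t • w) (aa y0 v R k) y0 0
      have e2 : dist (aa y0 v R k) y0 = 40 * ll R k := by
        unfold aa
        rw [dist_pt0 hv, abs_neg, abs_of_nonneg (by positivity)]
      rw [dist_pt0 hw, e2, dist_zero_right y0] at e1
      linarith
    have hcov := cover hv hw hvw hR hCz k
    obtain ⟨a, ha⟩ : ∃ a, a = aa y0 v R k := ⟨_, rfl⟩
    obtain ⟨l, hl⟩ : ∃ l, l = ll R k := ⟨_, rfl⟩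
    have hl0 : 0 < l := by
      rw [hl]
      exact ll_pos hR k
    unfold GG at hcov
    rw [← ha, ← hl] at hcov hq1 hq2
    rw [← ha] at hpt
    rw [← hl] at hk1 hk2 hlR hpt
    have habs : ∀ t : ℝ, 0 ≤ t → t ≤ 5 / 4 → |t * l| ≤ 5 / 4 * l ∧ |-(t * l)| ≤ 5 / 4 * l := by
      intro t h0 h1
      rw [abs_neg, abs_of_nonneg (by positivity)]
      have := mul_le_mul_of_nonneg_right h1 hl0.le
      exact ⟨this, this⟩
    have mc1 := hpt _ (habs (3 / 4) (by norm_num) (by norm_num)).1
    have mc2 := hpt _ (habs (3 / 4) (by norm_num) (by norm_num)).2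
    have me1 := hpt _ (habs (5 / 4) (by norm_num) (by norm_num)).1
    have me2 := hpt _ (habs (5 / 4) (by norm_num) (by norm_num)).2
    have ma : a ∈ ball (0 : Sp d) ρ := by
      have := hpt 0 (by rw [abs_zero]; positivity)
      rwa [zero_smul, add_zero] at this
    refine ⟨l / 400, by positivity, fun C'' hC'' hnr => ?_⟩
    obtain ⟨⟨hn1, hn2'⟩, -, hn3⟩ := hnr
    have hstab : ∀ q : M, ball q (l / 200) ⊆ C' → ball q (l / 400) ⊆ C'' := by
      intro q hq y hy
      by_contra hcon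
      obtain ⟨y', hy', hyy'⟩ := hn3 y hcon
      refine hy' (hq ?_)
      rw [mem_ball] at hy ⊢
      have := dist_triangle y' y q
      rw [dist_comm y' y] at this
      linarith
    have hb1 := hstab _ hq1.2
    have hb2 := hstab _ hq2.2
    have hinf'' : C''.Infinite := h.infinite hw (hsub hq1.1) (by positivity) hb1
    obtain ⟨f'', hf''⟩ := exists_sepMax hC''.1 hinf'' hn2
    have h1 := sepMax_close hn1 hf hf''
    have h2 := sepMax_close hn2' hf'' hf
    -- the covering for `C'`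
    have hcov' : ∀ y ∈ C', dist y (φ (a + (3 / 4 * l) • w)) ≤ l / 2 + 3 / 1000 * l ∨
        dist y (φ (a + (-(3 / 4 * l)) • w)) ≤ l / 2 + 3 / 1000 * l ∨
        dist y (φ a) ≤ l / 4 + 3 / 1000 * l ∨
        (6 / 5 * l - 3 / 1000 * l ≤ dist (φ (a + (5 / 4 * l) • w)) y ∧
          6 / 5 * l - 3 / 1000 * l ≤ dist (φ (a + (-(5 / 4 * l)) • w)) y) := by
      have hDK' : ∀ z ∈ D ∪ K, z ∈ ball (0 : Sp d) r →
          dist (φ z) (φ (a + (3 / 4 * l) • w)) ≤ l / 2 + 3 / 1000 * l ∨
          dist (φ z) (φ (a + (-(3 / 4 * l)) • w)) ≤ l / 2 + 3 / 1000 * l ∨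
          dist (φ z) (φ a) ≤ l / 4 + 3 / 1000 * l ∨
          (6 / 5 * l - 3 / 1000 * l ≤ dist (φ (a + (5 / 4 * l) • w)) (φ z) ∧
            6 / 5 * l - 3 / 1000 * l ≤ dist (φ (a + (-(5 / 4 * l)) • w)) (φ z)) := by
        intro z hz hzr
        rcases hcov z (hDK hz) with (h3 | h3 | h3) | ⟨h3, h4⟩
        · left
          rw [mem_closedBall] at h3
          have := h.hi z hzr _ (hsub mc1)
          linarith
        · right; left
          rw [mem_closedBall] at h3
          have := h.hi z hzr _ (hsub mc2)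
          linarith
        · right; right; left
          rw [mem_closedBall] at h3
          have := h.hi z hzr _ (hsub ma)
          linarith
        · right; right; right
          have h5 := h.lo _ (hsub me1) z hzr
          have h6 := h.lo _ (hsub me2) z hzr
          constructor <;> linarith
      intro y hy
      rcases hCb y hy with h3 | ⟨z, hz, rfl⟩
      · by_cases hys : y ∈ φ '' ball 0 r
        · obtain ⟨z, hz, rfl⟩ := hys
          exact hDK' z (Or.inl (by rw [hD]; exact ⟨hz, h3⟩)) hz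
        · right; right; right
          have h4 : s ≤ dist y x := by
            by_contra hcon
            exact hys (h.surj (mem_ball.2 (not_le.1 hcon)))
          have h5 := (hnear _ me1).1
          have h6 := (hnear _ me2).1
          have h7 := dist_triangle y (φ (a + (5 / 4 * l) • w)) x
          have h8 := dist_triangle y (φ (a + (-(5 / 4 * l)) • w)) x
          rw [dist_comm y (φ (a + (5 / 4 * l) • w))] at h7
          rw [dist_comm y (φ (a + (-(5 / 4 * l)) • w))] at h8
          constructor <;> linarith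
      · exact hDK' z (Or.inr hz) (hKr hz)
    refine gadget (a := φ a) (c₁ := φ (a + (3 / 4 * l) • w)) (c₂ := φ (a + (-(3 / 4 * l)) • w))
      (e₁ := φ (a + (5 / 4 * l) • w)) (e₂ := φ (a + (-(5 / 4 * l)) • w))
      (q₁ := φ (a + (31 / 25 * l) • w)) (q₂ := φ (a + (-(31 / 25 * l)) • w))
      (δ := 11 / 2000 * l) hl0 (by linarith) (by linarith) (by linarith) hn2 hf'' ?_ ?_ ?_ ?_ ?_ ?_
      (hb1 (mem_ball_self (by positivity))) (hb2 (mem_ball_self (by positivity)))
      (h.path hw (hsub hq1.1) (by positivity) hb1) (h.path hw (hsub hq2.1) (by positivity) hb2)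
    · intro y hy
      obtain ⟨y', hy', hyy'⟩ := hn2' y hy
      rcases hcov' y' hy' with h3 | h3 | h3 | ⟨h3, h4⟩
      · left
        have := dist_triangle y y' (φ (a + (3 / 4 * l) • w))
        linarith
      · right; left
        have := dist_triangle y y' (φ (a + (-(3 / 4 * l)) • w))
        linarith
      · right; right; left
        have := dist_triangle y y' (φ a)
        linarith
      · right; right; right
        have h5 := dist_triangle (φ (a + (5 / 4 * l) • w)) y y'
        have h6 := dist_triangle (φ (a + (-(5 / 4 * l)) • w)) y y'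
        constructor <;> linarith
    · have h3 := h.hi _ (hsub hq1.1) _ (hsub me1)
      rw [dist_pt hw, abs_of_nonpos (by linarith)] at h3
      linarith
    · have h3 := h.hi _ (hsub hq2.1) _ (hsub me2)
      rw [dist_pt hw, abs_of_nonneg (by linarith)] at h3
      linarith
    · have h3 := h.lo _ (hsub hq1.1) _ (hsub mc2)
      rw [dist_pt hw, abs_of_nonneg (by linarith)] at h3
      linarith
    · have h3 := h.lo _ (hsub hq2.1) _ (hsub mc1)
      rw [dist_pt hw, abs_of_nonpos (by linarith)] at h3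
      linarith
    · have h3 := h.lo _ (hsub hq1.1) _ (hsub hq2.1)
      rw [dist_pt hw, abs_of_nonneg (by linarith)] at h3
      linarith

end Chart

section Residual

variable {M : Type*} [MetricSpace M]

private lemma HClose.trans {δ δ' : ℝ} {A B D : Set M} (h : HClose δ A B)
    (h' : HClose δ' B D) : HClose (δ + δ') A D := by
  constructor
  · intro x hx
    obtain ⟨y, hy, hxy⟩ := h.1 x hx
    obtain ⟨z, hz, hyz⟩ := h'.1 y hy
    exact ⟨z, hz, (dist_triangle x y z).trans (add_le_add hxy hyz)⟩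
  · intro z hz
    obtain ⟨y, hy, hzy⟩ := h'.2 z hz
    obtain ⟨x, hx, hyx⟩ := h.2 y hy
    refine ⟨x, hx, (dist_triangle z y x).trans ?_⟩
    linarith

private lemma HClose.refl {δ : ℝ} (hδ : 0 ≤ δ) (A : Set M) : HClose δ A A :=
  ⟨fun x hx => ⟨x, hx, by rw [dist_self]; exact hδ⟩, fun x hx => ⟨x, hx, by rw [dist_self]; exact hδ⟩⟩

private lemma hausdorffEDist_le_of_hclose {ε : ℝ} {A B : Set M} (h : HClose ε A B) :
    hausdorffEDist A B ≤ ENNReal.ofReal ε := by
  refine hausdorffEDist_le_of_mem_edist ?_ ?_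
  · intro x hx
    obtain ⟨y, hy, hxy⟩ := h.1 x hx
    exact ⟨y, hy, by rw [edist_dist]; exact ENNReal.ofReal_le_ofReal hxy⟩
  · intro y hy
    obtain ⟨x, hx, hxy⟩ := h.2 y hy
    exact ⟨x, hx, by rw [edist_dist]; exact ENNReal.ofReal_le_ofReal hxy⟩

private lemma hclose_of_hausdorffEDist {δ : ℝ} (hδ : 0 < δ) {A B : Set M}
    (h : hausdorffEDist A B ≤ ENNReal.ofReal (δ / 2)) : HClose δ A B := by
  have h1 : hausdorffEDist A B < ENNReal.ofReal δ := by
    refine h.trans_lt ?_
    rw [ENNReal.ofReal_lt_ofReal_iff hδ]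
    linarith
  constructor
  · intro x hx
    obtain ⟨y, hy, hxy⟩ := exists_edist_lt_of_hausdorffEDist_lt hx h1
    rw [edist_dist, ENNReal.ofReal_lt_ofReal_iff hδ] at hxy
    exact ⟨y, hy, hxy.le⟩
  · intro y hy
    rw [hausdorffEDist_comm] at h1
    obtain ⟨x, hx, hxy⟩ := exists_edist_lt_of_hausdorffEDist_lt hy h1
    rw [edist_dist, ENNReal.ofReal_lt_ofReal_iff hδ] at hxy
    exact ⟨x, hx, hxy.le⟩

private lemma near_of_edist {δ : ℝ} (hδ : 0 < δ)
    {p q : NonemptyCompacts M × Closeds M} (hp : p ∈ Reg M) (hq : q ∈ Reg M)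
    (h : edist p q ≤ ENNReal.ofReal (δ / 2)) : Near δ (p.1 : Set M) (q.1 : Set M) := by
  have h1 : hausdorffEDist (p.1 : Set M) (q.1 : Set M) ≤ ENNReal.ofReal (δ / 2) :=
    (le_max_left _ _).trans h
  have h2 : hausdorffEDist (p.2 : Set M) (q.2 : Set M) ≤ ENNReal.ofReal (δ / 2) :=
    (le_max_right _ _).trans h
  rw [hp.2.2, hq.2.2, hausdorffEDist_closure] at h2
  exact ⟨hclose_of_hausdorffEDist hδ h1, hclose_of_hausdorffEDist hδ h2⟩

private lemma edist_le_of_near {ε : ℝ} {p q : NonemptyCompacts M × Closeds M}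
    (hp : p ∈ Reg M) (hq : q ∈ Reg M) (h : Near ε (p.1 : Set M) (q.1 : Set M)) :
    edist p q ≤ ENNReal.ofReal ε := by
  have h1 : hausdorffEDist (p.1 : Set M) (q.1 : Set M) ≤ ENNReal.ofReal ε :=
    hausdorffEDist_le_of_hclose h.1
  have h2 : hausdorffEDist (p.2 : Set M) (q.2 : Set M) ≤ ENNReal.ofReal ε := by
    rw [hp.2.2, hq.2.2, hausdorffEDist_closure]
    exact hausdorffEDist_le_of_hclose h.2
  exact max_le h1 h2

private lemma residual_aux {T : Set (NonemptyCompacts M × Closeds M)} (hT : T ⊆ Reg M)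
    (h : ∀ p ∈ T, ∀ ε > 0, ∀ N : ℕ, ∃ q ∈ T, Near ε (p.1 : Set M) (q.1 : Set M) ∧
      ∃ δ > 0, ∀ C'', CompactRegion C'' → Near δ (q.1 : Set M) C'' → ∃ n ≥ N, Good C'' n) :
    {p : T | ∀ N : ℕ, ∃ n ≥ N, Good (p.1.1 : Set M) n} ∈ residual T := by
  let V : ℕ → Set T := fun N => {p | ∃ δ > 0, ∀ C'', CompactRegion C'' →
    Near δ (p.1.1 : Set M) C'' → ∃ n ≥ N, Good C'' n}
  have hopen : ∀ N, IsOpen (V N) := by
    intro N
    rw [isOpen_iff_mem_nhds]
    rintro p ⟨δ, hδ, hp⟩
    refine nhds_basis_closedEBall.mem_iff.2 ⟨ENNReal.ofReal (δ / 2 / 2), ?_, ?_⟩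
    · rw [ENNReal.ofReal_pos]
      positivity
    · intro q hq
      rw [mem_closedEBall, edist_comm] at hq
      have h1 : Near (δ / 2) (p.1.1 : Set M) (q.1.1 : Set M) :=
        near_of_edist (by positivity) (hT p.2) (hT q.2) hq
      refine ⟨δ / 2, by positivity, fun C'' hC'' hn => hp C'' hC'' ?_⟩
      have h2 := h1.1.trans hn.1
      have h3 := h1.2.trans hn.2
      rw [add_halves] at h2 h3
      exact ⟨h2, h3⟩
  have hdense : ∀ N, Dense (V N) := by
    intro N p
    refine (mem_closure_iff_nhds_basis nhds_basis_closedEBall).2 fun ε hε => ?_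
    have hm : 0 < min ε 1 := lt_min hε one_pos
    have hm' : min ε 1 ≠ ⊤ := ne_top_of_le_ne_top ENNReal.one_ne_top (min_le_right _ _)
    have hr : 0 < (min ε 1).toReal := ENNReal.toReal_pos hm.ne' hm'
    obtain ⟨q, hq, hnear, hδ⟩ := h p.1 p.2 _ hr N
    refine ⟨⟨q, hq⟩, hδ, ?_⟩
    rw [mem_closedEBall, edist_comm]
    have h1 : edist p.1 q ≤ ENNReal.ofReal (min ε 1).toReal :=
      edist_le_of_near (hT p.2) (hT hq) hnear
    rw [ENNReal.ofReal_toReal hm'] at h1
    exact h1.trans (min_le_left _ _)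
  have hres : (⋂ N, V N) ∈ residual T :=
    countable_iInter_mem.2 fun N => residual_of_dense_open (hopen N) (hdense N)
  refine Filter.mem_of_superset hres ?_
  intro p hp N
  obtain ⟨δ, hδ, h1⟩ := mem_iInter.1 hp N
  exact h1 _ (hT p.2).1 ⟨HClose.refl hδ.le _, HClose.refl hδ.le _⟩

private lemma isGδ_reg : IsGδ (Reg M) := by
  have h := isGδ_pairs (E := M)
  have h1 : IsClosed {K : NonemptyCompacts M | (K : Set M) = univ} := by
    refine Set.Subsingleton.isClosed ?_
    intro K hK L hL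
    exact NonemptyCompacts.ext (Eq.trans hK (Eq.symm hL))
  have h2 : IsGδ {p : NonemptyCompacts M × Closeds M | (p.1 : Set M) ≠ univ} :=
    (h1.isOpen_compl.preimage continuous_fst).isGδ
  convert! h.inter h2 using 1
  ext p
  simp only [Reg, CompactRegion, mem_ofPred_eq, mem_inter_iff]
  exact ⟨fun hp => ⟨⟨hp.1.2, hp.2.2⟩, hp.2.1⟩,
    fun hp => ⟨⟨p.1.isCompact, hp.1.1⟩, hp.2, hp.1.2⟩⟩

private lemma isGδ_regC : IsGδ (RegC M) :=
  isGδ_reg.inter (isClosed_connected.preimage continuous_fst).isGδ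

end Residual

section Sphere

variable {d : ℕ}

private lemma locallyFlat_sp : LocallyFlat d (Sp d) := by
  intro x κ hκ
  refine ⟨1, one_pos, fun y => x + y, by simp, ?_, 1, one_pos, ?_⟩
  · intro y _ z _
    rw [dist_add_left]
    have h := dist_nonneg (x := y) (y := z)
    constructor <;> nlinarith
  · intro z hz
    refine ⟨z - x, ?_, add_sub_cancel x z⟩
    rw [mem_ball, dist_zero_right, ← dist_eq_norm]
    exact hz

private lemma real_aux1 {Y c N r : ℝ} (h1 : Y ^ 2 + c ^ 2 = 1) (h2 : N ^ 2 = 2 - 2 * c)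
    (h3 : N < r) (h4 : r ≤ 1 / 2) (h5 : 0 ≤ Y) (h6 : 0 ≤ N) : 0 ≤ c ∧ Y < r := by
  have h7 : N ^ 2 < 1 / 4 := by nlinarith
  have h8 : 0 ≤ c := by linarith
  have h9 : c ≤ 1 := by nlinarith
  refine ⟨h8, ?_⟩
  have h10 : Y ^ 2 ≤ N ^ 2 := by
    rw [h2]
    nlinarith
  have h11 : Y ≤ N := (sq_le_sq₀ h5 h6).1 h10
  linarith

private lemma real_aux2 {Y Z D a b r κ E : ℝ} (hr1 : r ≤ 1 / 2) (hrκ : r ≤ κ / 2) (hr : 0 < r)
    (hY : Y < r) (hZ : Z < r) (hY0 : 0 ≤ Y) (hZ0 : 0 ≤ Z) (hD0 : 0 ≤ D) (hE0 : 0 ≤ E)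
    (ha2 : a ^ 2 = 1 - Y ^ 2) (hb2 : b ^ 2 = 1 - Z ^ 2) (ha0 : 0 ≤ a) (hb0 : 0 ≤ b)
    (h2 : |Z - Y| ≤ D) (hκ : 0 < κ) (hE : E ^ 2 = D ^ 2 + (a - b) ^ 2) :
    (1 - κ) * D ≤ E ∧ E ≤ (1 + κ) * D := by
  have ha1 : 1 / 2 ≤ a := by nlinarith
  have hb1 : 1 / 2 ≤ b := by nlinarith
  have hab : |a - b| ≤ 2 * r * D := by
    have h1 : (a - b) * (a + b) = (Z - Y) * (Z + Y) := by linear_combination ha2 - hb2
    have h3 : |a - b| * (a + b) = |Z - Y| * (Z + Y) := by
      rw [← abs_of_nonneg (show 0 ≤ a + b by linarith), ← abs_mul, h1, abs_mul,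
        abs_of_nonneg (show 0 ≤ Z + Y by linarith)]
    have h4 : |a - b| ≤ |a - b| * (a + b) := by
      nlinarith [abs_nonneg (a - b)]
    have h5 : |Z - Y| * (Z + Y) ≤ D * (2 * r) := by
      apply mul_le_mul h2 (by linarith) (by linarith) hD0
    linarith
  constructor
  · have h1 : D ≤ E := by
      refine (sq_le_sq₀ hD0 hE0).1 ?_
      rw [hE]
      nlinarith [sq_nonneg (a - b)]
    nlinarith
  · refine (sq_le_sq₀ hE0 (by positivity)).1 ?_
    rw [hE]
    have h1 : (a - b) ^ 2 ≤ (2 * r * D) ^ 2 := by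
      rw [← sq_abs (a - b)]
      exact pow_le_pow_left₀ (abs_nonneg _) hab 2
    have h3 : (2 * r) ^ 2 ≤ κ := by nlinarith
    have h4 : (2 * r * D) ^ 2 ≤ κ * D ^ 2 := by
      rw [mul_pow]
      exact mul_le_mul_of_nonneg_right h3 (sq_nonneg D)
    nlinarith [mul_nonneg hκ.le (sq_nonneg D), mul_nonneg (sq_nonneg κ) (sq_nonneg D)]

private lemma locallyFlat_sphere : LocallyFlat d (sphere (0 : Sp (d + 1)) 1) := by
  intro x κ hκ
  have hx1 : ‖(x : Sp (d + 1))‖ = 1 := by simp
  have hx0 : (x : Sp (d + 1)) ≠ 0 := by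
    intro h
    rw [h, norm_zero] at hx1
    exact zero_ne_one hx1
  have hxx : inner ℝ (x : Sp (d + 1)) (x : Sp (d + 1)) = (1 : ℝ) := by
    rw [real_inner_self_eq_norm_sq, hx1]
    norm_num
  have hfact : Fact (Module.finrank ℝ (Sp (d + 1)) = d + 1) := ⟨by simp⟩
  obtain ⟨ι⟩ : Nonempty (Sp d ≃ₗᵢ[ℝ] (Submodule.span ℝ {(x : Sp (d + 1))})ᗮ) :=
    ⟨(OrthonormalBasis.fromOrthogonalSpanSingleton d hx0).repr.symm⟩
  obtain ⟨ψ, hψ⟩ : ∃ ψ : Sp d → Sp (d + 1), ψ = fun y =>
      ((ι y : Sp (d + 1)) + Real.sqrt (1 - ‖y‖ ^ 2) • (x : Sp (d + 1))) := ⟨_, rfl⟩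
  have hort : ∀ y : Sp d, inner ℝ (ι y : Sp (d + 1)) (x : Sp (d + 1)) = (0 : ℝ) := by
    intro y
    rw [real_inner_comm]
    exact (Submodule.mem_orthogonal_singleton_iff_inner_right.1 (ι y).2)
  have hιn : ∀ y : Sp d, ‖(ι y : Sp (d + 1))‖ = ‖y‖ := fun y => ι.norm_map y
  have hnorm : ∀ (y : Sp d) (t : ℝ), ‖(ι y : Sp (d + 1)) + t • (x : Sp (d + 1))‖ ^ 2 =
      ‖y‖ ^ 2 + t ^ 2 := by
    intro y t
    rw [norm_add_sq_real, inner_smul_right, hort, norm_smul, hx1, hιn, Real.norm_eq_abs,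
      mul_one, sq_abs]
    ring
  have hψs : ∀ y : Sp d, ‖y‖ ≤ 1 → ψ y ∈ sphere (0 : Sp (d + 1)) 1 := by
    intro y hy
    rw [mem_sphere_zero_iff_norm, hψ]
    have h1 := hnorm y (Real.sqrt (1 - ‖y‖ ^ 2))
    rw [Real.sq_sqrt (by nlinarith [norm_nonneg y])] at h1
    have h2 : ‖(ι y : Sp (d + 1)) + Real.sqrt (1 - ‖y‖ ^ 2) • (x : Sp (d + 1))‖ ^ 2 = 1 := by
      rw [h1]
      ring
    exact (pow_eq_one_iff_of_nonneg (norm_nonneg _) two_ne_zero).1 h2
  classical
  obtain ⟨φ, hφ⟩ : ∃ φ : Sp d → sphere (0 : Sp (d + 1)) 1, φ = fun y =>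
      if h : ψ y ∈ sphere (0 : Sp (d + 1)) 1 then ⟨ψ y, h⟩ else x := ⟨_, rfl⟩
  have hφψ : ∀ y : Sp d, ‖y‖ ≤ 1 → (φ y : Sp (d + 1)) = ψ y := by
    intro y hy
    rw [hφ]
    simp only [hψs y hy, dif_pos]
  obtain ⟨r, hr, hr1, hrκ⟩ : ∃ r > 0, r ≤ 1 / 2 ∧ r ≤ κ / 2 :=
    ⟨min (1 / 2) (κ / 2), by positivity, min_le_left _ _, min_le_right _ _⟩
  have hrn : ∀ y ∈ ball (0 : Sp d) r, ‖y‖ < r := by
    intro y hy
    rwa [mem_ball, dist_zero_right] at hy
  refine ⟨r, hr, φ, ?_, ?_, r, hr, ?_⟩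
  · apply Subtype.ext
    rw [hφψ 0 (by simp), hψ]
    simp
  · intro y hy z hz
    have hy1 := hrn y hy
    have hz1 := hrn z hz
    obtain ⟨a, ha⟩ : ∃ a, a = Real.sqrt (1 - ‖y‖ ^ 2) := ⟨_, rfl⟩
    obtain ⟨b, hb⟩ : ∃ b, b = Real.sqrt (1 - ‖z‖ ^ 2) := ⟨_, rfl⟩
    have ha2 : a ^ 2 = 1 - ‖y‖ ^ 2 := by
      rw [ha, Real.sq_sqrt]
      nlinarith [norm_nonneg y]
    have hb2 : b ^ 2 = 1 - ‖z‖ ^ 2 := by
      rw [hb, Real.sq_sqrt]
      nlinarith [norm_nonneg z]
    have ha0 : 0 ≤ a := by rw [ha]; exact Real.sqrt_nonneg _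
    have hb0 : 0 ≤ b := by rw [hb]; exact Real.sqrt_nonneg _
    have hdist : dist (φ y) (φ z) ^ 2 = dist y z ^ 2 + (a - b) ^ 2 := by
      rw [Subtype.dist_eq, hφψ y (by linarith), hφψ z (by linarith), hψ, dist_eq_norm,
        dist_eq_norm, ← hnorm (y - z) (a - b)]
      congr 2
      simp only [map_sub, Submodule.coe_sub, sub_smul, ha, hb]
      abel
    have h2 : |‖z‖ - ‖y‖| ≤ dist y z := by
      rw [dist_comm, dist_eq_norm]
      exact abs_norm_sub_norm_le z y
    exact real_aux2 hr1 hrκ hr hy1 hz1 (norm_nonneg y) (norm_nonneg z) dist_nonneg dist_nonneg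
      ha2 hb2 ha0 hb0 h2 hκ hdist
  · intro m hm
    have hm1 : ‖(m : Sp (d + 1))‖ = 1 := by simp
    rw [mem_ball, Subtype.dist_eq, dist_eq_norm] at hm
    obtain ⟨c, hc⟩ : ∃ c : ℝ, c = inner ℝ (x : Sp (d + 1)) (m : Sp (d + 1)) := ⟨_, rfl⟩
    have hmx : ‖(m : Sp (d + 1)) - x‖ ^ 2 = 2 - 2 * c := by
      rw [norm_sub_sq_real, hm1, hx1, real_inner_comm, ← hc]
      ring
    have hu : (m : Sp (d + 1)) - c • (x : Sp (d + 1)) ∈
        (Submodule.span ℝ {(x : Sp (d + 1))})ᗮ := by
      rw [Submodule.mem_orthogonal_singleton_iff_inner_right, inner_sub_right, inner_smul_right,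
        hxx, ← hc]
      ring
    obtain ⟨y, hy⟩ : ∃ y : Sp d, y = ι.symm ⟨_, hu⟩ := ⟨_, rfl⟩
    have hιy : (ι y : Sp (d + 1)) = (m : Sp (d + 1)) - c • (x : Sp (d + 1)) := by
      rw [hy, LinearIsometryEquiv.apply_symm_apply]
    have hmy : ‖y‖ ^ 2 + c ^ 2 = 1 := by
      rw [← hnorm y c, hιy, sub_add_cancel, hm1]
      norm_num
    obtain ⟨hc1, hyr⟩ := real_aux1 hmy hmx hm hr1 (norm_nonneg y) (norm_nonneg _)
    refine ⟨y, by rw [mem_ball, dist_zero_right]; exact hyr, ?_⟩
    apply Subtype.ext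
    rw [hφψ y (hyr.le.trans (hr1.trans (by norm_num))), hψ]
    have h4 : Real.sqrt (1 - ‖y‖ ^ 2) = c := by
      rw [show 1 - ‖y‖ ^ 2 = c ^ 2 from by rw [← hmy]; ring, Real.sqrt_sq hc1]
    simp only [h4, hιy, sub_add_cancel]

end Sphere

/-- Let `d ≥ 2` and let `M` be a complete connected metric space which is locally almost isometric to
`ℝ^d`; this holds for `ℝ^d` and for the unit sphere of `ℝ^(d+1)`.

(1) Let `C` be a compact region of `M`, `x` a boundary point of `C` and `ε > 0`. There is a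
compact region `C' ⊇ C` with `C' \ C` in the ball of radius `ε` around `x`, connected if `C` is
connected, such that for all sufficiently large `n` some extremal `n`-point set has a freely movable
point, in `C'` and also in every compact region `C''` close enough (depending on `n`) to `C'`.

(2) The nonempty compact regions different from `M` form a Baire space, and those for which this
happens for infinitely many `n` form a residual set in it.

(3) The same holds for the connected compact regions. -/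
theorem result (d : ℕ) (hd : 2 ≤ d) :
    (∀ (M : Type) [MetricSpace M] [CompleteSpace M] [ConnectedSpace M], LocallyFlat d M →
      (∀ C : Set M, CompactRegion C → ∀ x ∈ frontier C, ∀ ε > 0,
        ∃ C' : Set M, C ⊆ C' ∧ C' ⊆ C ∪ closedBall x ε ∧ CompactRegion C' ∧ Near ε C C' ∧
          (IsConnected C → IsConnected C') ∧
          ∃ n₀ : ℕ, ∀ n ≥ n₀, ∃ δ > 0, ∀ C'' : Set M, CompactRegion C'' → Near δ C' C'' →
            Good C'' n) ∧
      (BaireSpace (Reg M) ∧
        {p : Reg M | ∀ N : ℕ, ∃ n ≥ N, Good (p.1.1 : Set M) n} ∈ residual (Reg M)) ∧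
      (BaireSpace (RegC M) ∧
        {p : RegC M | ∀ N : ℕ, ∃ n ≥ N, Good (p.1.1 : Set M) n} ∈ residual (RegC M))) ∧
    (CompleteSpace (Sp d) ∧ ConnectedSpace (Sp d) ∧ LocallyFlat d (Sp d)) ∧
    (CompleteSpace (sphere (0 : Sp (d + 1)) 1) ∧ ConnectedSpace (sphere (0 : Sp (d + 1)) 1) ∧
      LocallyFlat d (sphere (0 : Sp (d + 1)) 1)) := by
  refine ⟨?_, ⟨inferInstance, inferInstance, locallyFlat_sp⟩,
    ⟨inferInstance, ?_, locallyFlat_sphere⟩⟩
  · intro M _ _ _ hM
    have hmain : ∀ C : Set M, CompactRegion C → ∀ x ∈ frontier C, ∀ ε > 0,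
        ∃ C' : Set M, C ⊆ C' ∧ C' ⊆ C ∪ closedBall x ε ∧ CompactRegion C' ∧ Near ε C C' ∧
          (IsConnected C → IsConnected C') ∧
          (∃ y, y ∉ C') ∧
          ∃ n₀ : ℕ, ∀ n ≥ n₀, ∃ δ > 0, ∀ C'' : Set M, CompactRegion C'' → Near δ C' C'' →
            Good C'' n := by
      intro C hC x hx ε hε
      have hxC : x ∈ C := hC.1.isClosed.frontier_subset hx
      obtain ⟨r, hr, φ, hφ0, hφ, s, hs, hsurj⟩ := hM x (1 / 400) (by norm_num)
      have hcht : Cht φ x r s :=
        ⟨hr, hs, hφ0, fun y hy z hz => le_trans (le_of_eq (by norm_num)) (hφ y hy z hz).1,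
          fun y hy z hz => le_trans (hφ y hy z hz).2 (le_of_eq (by norm_num)), hsurj⟩
      obtain ⟨C', h1, h2, h3, h4, h5, h6⟩ := main hd hC hx hcht hε
      have hout : ∃ y, y ∉ C' := by
        have h7 : x ∈ closure Cᶜ := by
          rw [frontier_eq_closure_inter_closure] at hx
          exact hx.2
        obtain ⟨m, hm, -⟩ := Metric.mem_closure_iff.1 h7 1 one_pos
        obtain ⟨y, hy, -⟩ := h3 m hm
        exact ⟨y, hy⟩
      refine ⟨C', h1, h2, h4, ⟨⟨?_, ?_⟩, ?_, ?_⟩, h5, hout, h6⟩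
      · intro y hy
        exact ⟨y, h1 hy, by rw [dist_self]; exact hε.le⟩
      · intro y hy
        rcases h2 hy with h | h
        · exact ⟨y, h, by rw [dist_self]; exact hε.le⟩
        · exact ⟨x, hxC, h⟩
      · intro y hy
        obtain ⟨y', hy', hyy'⟩ := h3 y hy
        exact ⟨y', hy', hyy'⟩
      · intro y hy
        exact ⟨y, fun h => hy (h1 h), by rw [dist_self]; exact hε.le⟩
    have happrox : ∀ C : NonemptyCompacts M, CompactRegion (C : Set M) → (C : Set M) ≠ univ →
        ∀ ε > 0, ∀ N : ℕ, ∃ q ∈ Reg M, Near ε (C : Set M) (q.1 : Set M) ∧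
          (IsConnected (C : Set M) → IsConnected (q.1 : Set M)) ∧
          ∃ δ > 0, ∀ C'', CompactRegion C'' → Near δ (q.1 : Set M) C'' →
            ∃ n ≥ N, Good C'' n := by
      intro C hC hne ε hε N
      have hfr : (frontier (C : Set M)).Nonempty := by
        rw [nonempty_frontier_iff]
        exact ⟨C.nonempty, hne⟩
      obtain ⟨x, hx⟩ := hfr
      obtain ⟨C', h1, h2, h3, h4, h5, ⟨y, hy⟩, n₀, h6⟩ := hmain C hC x hx ε hε
      obtain ⟨δ, hδ, h7⟩ := h6 (max n₀ N) (le_max_left _ _)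
      have hne' : C'.Nonempty := C.nonempty.mono h1
      refine ⟨⟨⟨⟨C', h3.1⟩, hne'⟩, ⟨closure C'ᶜ, isClosed_closure⟩⟩,
        ⟨h3, fun h => hy (eq_univ_iff_forall.1 (show C' = univ from h) y), rfl⟩, h4, h5,
        δ, hδ, fun C'' hC'' hn => ⟨max n₀ N, le_max_right _ _, h7 C'' hC'' hn⟩⟩
    refine ⟨?_, ⟨baire_of_isGδ isGδ_reg, residual_aux Subset.rfl ?_⟩,
      ⟨baire_of_isGδ isGδ_regC, residual_aux (fun p hp => hp.1) ?_⟩⟩
    · intro C hC x hx ε hε
      obtain ⟨C', h1, h2, h3, h4, h5, -, h6⟩ := hmain C hC x hx ε hε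
      exact ⟨C', h1, h2, h3, h4, h5, h6⟩
    · intro p hp ε hε N
      obtain ⟨q, hq, h1, -, h2⟩ := happrox p.1 hp.1 hp.2.1 ε hε N
      exact ⟨q, hq, h1, h2⟩
    · intro p hp ε hε N
      obtain ⟨q, hq, h1, h3, h2⟩ := happrox p.1 hp.1.1 hp.1.2.1 ε hε N
      exact ⟨q, ⟨hq, h3 hp.2⟩, h1, h2⟩
  · refine Subtype.connectedSpace (isConnected_sphere ?_ 0 zero_le_one)
    rw [← Module.finrank_eq_rank, finrank_euclideanSpace_fin]
    exact_mod_cast (by omega : 1 < d + 1)

end Pool.Agent.Results.MP_251bf7_co.GenericRegions
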